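import Pool.Agent.Run7.h342.MD.Stm

/-!
The algebra of invariants is noetherian (Hilbert's argument with the Reynolds functional).
-/

namespace Run7.h342.MD

open MvPolynomial

noncomputable section

theorem noetherian_of_retract {A B : Type} [CommRing A] [CommRing B] [IsNoetherianRing B]
    (ι : A →+* B) (R : B →+ A) (h1 : ∀ a, R (ι a) = a) (h2 : ∀ a b, R (b * ι a) = R b * a) :
    IsNoetherianRing A := by
  have h3 : ∀ (I : Ideal A) (a : A), ι a ∈ I.map ι → a ∈ I := by
    intro I a ha
    have h4 : ∀ y ∈ I.map ι, ∀ b, R (b * y) ∈ I := by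
      intro y hy
      induction hy using Submodule.span_induction with
      | mem x hx =>
        obtain ⟨a, ha, rfl⟩ := hx
        intro b
        rw [h2]
        exact I.mul_mem_left _ ha
      | zero =>
        intro b
        rw [mul_zero, map_zero]
        exact I.zero_mem
      | add x y _ _ hx hy =>
        intro b
        rw [mul_add, map_add]
        exact I.add_mem (hx b) (hy b)
      | smul c x _ hx =>
        intro b
        rw [smul_eq_mul, ← mul_assoc]
        exact hx (b * c)
    have h5 := h4 _ ha 1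
    rwa [one_mul, h1] at h5
  rw [isNoetherianRing_iff, isNoetherian_iff']
  have h4 : StrictMono (fun I : Ideal A => I.map ι) := by
    intro I J hIJ
    refine lt_of_le_of_ne (Ideal.map_mono hIJ.le) fun h => hIJ.ne (le_antisymm hIJ.le ?_)
    intro a ha
    apply h3
    have h5 : ι a ∈ J.map ι := Ideal.mem_map_of_mem _ ha
    have h6 : I.map ι = J.map ι := h
    rwa [h6]
  exact h4.wellFoundedGT

variable (n d : ℕ) (k : Type) [Field k]

theorem t_NOE [IsAlgClosed k] [CharZero k] (h0 : S_RES n d k) (h1 : S_REPU n d k)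
    (h2 : S_EXP n d k) (h3 : S_REY n k) : IsNoetherianRing (Inv n d k) := by
  obtain ⟨Θ, hΘ⟩ := h0
  have hft := (h1 Θ hΘ).2
  have hnoeth : IsNoetherianRing (OU n d k) := Algebra.FiniteType.isNoetherianRing k _
  obtain ⟨ρ, hρ1, hρ⟩ := h3
  have hreg : ∀ (φ : OU n d k) (x : U n d k), RegG (fun g => φ.1 (gact g x)) := by
    intro φ x
    obtain ⟨N, f, ψ, hf, -, h⟩ := h2 φ.1 φ.2
    have h4 : (fun g => φ.1 (gact g x)) = ∑ i, (algebraMap k (GL (Fin n) k → k) (ψ i x)) * f i := by
      funext g
      rw [h, Finset.sum_apply]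
      refine Finset.sum_congr rfl fun i _ => ?_
      rw [mul_comm]
      rfl
    rw [h4]
    exact (OG n k).sum_mem fun i _ => (OG n k).mul_mem ((OG n k).algebraMap_mem _) (hf i)
  let S : OU n d k → U n d k → k := fun φ x => ρ ⟨fun g => φ.1 (gact g x), hreg φ x⟩
  have hSreg : ∀ φ, RegU (S φ) := by
    intro φ
    obtain ⟨N, f, ψ, hf, hψ, h⟩ := h2 φ.1 φ.2
    have h4 : S φ = ∑ i, (algebraMap k (U n d k → k) (ρ ⟨f i, hf i⟩)) * ψ i := by
      funext x
      have h5 : (⟨fun g => φ.1 (gact g x), hreg φ x⟩ : OG n k) =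
          ∑ i, ψ i x • (⟨f i, hf i⟩ : OG n k) := by
        apply Subtype.ext
        funext g
        have h6 : (∑ i, ψ i x • (⟨f i, hf i⟩ : OG n k)).1 = ∑ i, ψ i x • f i := by
          rw [AddSubmonoidClass.coe_finsetSum]
          rfl
        rw [h6, Finset.sum_apply]
        show φ.1 (gact g x) = _
        rw [h]
        refine Finset.sum_congr rfl fun i _ => ?_
        rw [Pi.smul_apply, smul_eq_mul, mul_comm]
      show ρ _ = _
      rw [h5, map_sum, Finset.sum_apply]
      refine Finset.sum_congr rfl fun i _ => ?_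
      rw [map_smul, smul_eq_mul, mul_comm]
      rfl
    rw [h4]
    exact (OU n d k).sum_mem fun i _ => (OU n d k).mul_mem ((OU n d k).algebraMap_mem _) (hψ i)
  have hSinv : ∀ φ, S φ ∈ Inv n d k := by
    intro φ
    refine mem_inv (hSreg φ) fun g₀ c => ?_
    have h5 : ∀ g : GL (Fin n) k, gact g (gact g₀ c) = gact (g * g₀) c :=
      fun g => Subtype.ext (act_mul g g₀ c.1).symm
    have h6 : ∀ g : GL (Fin n) k, (⟨fun g => φ.1 (gact g (gact g₀ c)), hreg φ (gact g₀ c)⟩ :
        OG n k).1 g = (⟨fun g => φ.1 (gact g c), hreg φ c⟩ : OG n k).1 (g * g₀) := by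
      intro g
      have h7 := h5 g
      change φ.1 (gact g (gact g₀ c)) = φ.1 (gact (g * g₀) c)
      rw [h7]
    exact hρ g₀ ⟨fun g => φ.1 (gact g c), hreg φ c⟩
      ⟨fun g => φ.1 (gact g (gact g₀ c)), hreg φ (gact g₀ c)⟩ h6
  have hle : Inv n d k ≤ OU n d k := fun φ h => h.1
  let ι : Inv n d k →+* OU n d k := (Subalgebra.inclusion hle).toRingHom
  let R : OU n d k →+ Inv n d k :=
    { toFun := fun φ => ⟨S φ, hSinv φ⟩
      map_zero' := by
        apply Subtype.ext
        funext x
        exact map_zero ρ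
      map_add' := by
        intro φ ψ
        apply Subtype.ext
        funext x
        exact map_add ρ ⟨fun g => φ.1 (gact g x), hreg φ x⟩ ⟨fun g => ψ.1 (gact g x), hreg ψ x⟩ }
  refine noetherian_of_retract ι R ?_ ?_
  · intro a
    apply Subtype.ext
    funext x
    have h5 : (⟨fun g => (ι a).1 (gact g x), hreg (ι a) x⟩ : OG n k) = a.1 x • (1 : OG n k) := by
      apply Subtype.ext
      funext g
      show a.1 (gact g x) = a.1 x * 1
      rw [inv_gact a.2, mul_one]
    show ρ _ = a.1 x
    rw [h5, map_smul, hρ1, smul_eq_mul, mul_one]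
  · intro a b
    apply Subtype.ext
    funext x
    have h5 : (⟨fun g => (b * ι a).1 (gact g x), hreg (b * ι a) x⟩ : OG n k) =
        a.1 x • (⟨fun g => b.1 (gact g x), hreg b x⟩ : OG n k) := by
      apply Subtype.ext
      funext g
      show b.1 (gact g x) * a.1 (gact g x) = a.1 x * b.1 (gact g x)
      rw [inv_gact a.2, mul_comm]
    show ρ _ = ρ _ * a.1 x
    rw [h5, map_smul, smul_eq_mul, mul_comm]

end

end Run7.h342.MD
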