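import Mathlib

/-!
Two applications of Nakayama's lemma, abstractly.
-/

namespace Run7.h342.MD

theorem abs_le {C' : Type} [CommRing C'] [IsNoetherianRing C'] (J M : Ideal C')
    (hM : M ≠ ⊤) (hJ : J ≤ M) (h1 : ∀ P : Ideal C', P.IsMaximal → J ≤ P → P = M)
    (h2 : M ≤ J ⊔ M ^ 2) : M ≤ J := by
  have hle : Submodule.map J.mkQ M ≤ M • Submodule.map J.mkQ M := by
    have h3 : Submodule.map J.mkQ M ≤ Submodule.map J.mkQ (J ⊔ M ^ 2) := Submodule.map_mono h2
    rw [Submodule.map_sup] at h3
    have h4 : Submodule.map J.mkQ J = ⊥ := by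
      rw [Submodule.mkQ_map_self]
    rw [h4, bot_sup_eq] at h3
    have h5 : Submodule.map J.mkQ (M ^ 2) = M • Submodule.map J.mkQ M := by
      rw [← Submodule.map_smul'', pow_two]
      rfl
    rwa [h5] at h3
  obtain ⟨r, hr, hr'⟩ := Submodule.exists_sub_one_mem_and_smul_eq_zero_of_fg_of_le_smul M
    (Submodule.map J.mkQ M) ((IsNoetherian.noetherian M).map _) hle
  have hr2 : ∀ x ∈ M, r * x ∈ J := by
    intro x hx
    have h3 := hr' (J.mkQ x) (Submodule.mem_map_of_mem hx)
    rw [← map_smul, Submodule.mkQ_apply, Submodule.Quotient.mk_eq_zero] at h3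
    exact h3
  let K : Ideal C' :=
    { carrier := {x | ∀ y ∈ M, x * y ∈ J}
      add_mem' := by
        intro a b ha hb y hy
        rw [add_mul]
        exact J.add_mem (ha y hy) (hb y hy)
      zero_mem' := by
        intro y _
        rw [zero_mul]
        exact J.zero_mem
      smul_mem' := by
        intro a b hb y hy
        rw [smul_eq_mul, mul_assoc]
        exact J.mul_mem_left _ (hb y hy) }
  have hJK : J ≤ K := fun x hx y _ => J.mul_mem_right _ hx
  have hK : K = ⊤ := by
    by_contra hne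
    obtain ⟨P, hP, hKP⟩ := Ideal.exists_le_maximal K hne
    have hPM := h1 P hP (hJK.trans hKP)
    have h3 : r ∈ M := by
      rw [← hPM]
      exact hKP hr2
    apply hM
    rw [Ideal.eq_top_iff_one]
    have h4 := M.sub_mem h3 hr
    rwa [sub_sub_cancel] at h4
  intro x hx
  have h3 : (1 : C') ∈ K := by
    rw [hK]
    trivial
  have h4 := h3 x hx
  rwa [one_mul] at h4

theorem abs_con {C C' S : Type} [CommRing C] [CommRing C'] [CommRing S] [Algebra C C']
    [Algebra C S] [Algebra C' S] [IsScalarTower C C' S]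
    (hinj : Function.Injective (algebraMap C' S)) [IsNoetherianRing C]
    [Algebra.FiniteType C S] [Algebra.IsIntegral C S] (m : Ideal C) (M : Ideal C') (hM : M ≠ ⊤)
    (hm : m.map (algebraMap C C') ≤ M)
    (h1 : ∀ P : Ideal C', P.IsMaximal → m.map (algebraMap C C') ≤ P → P = M)
    (h2 : M ≤ m.map (algebraMap C C') ⊔ M ^ 2) (h3 : ∀ f : C', ∃ c : C, f - algebraMap C C' c ∈ M) :
    ∃ c₀ : C, c₀ - 1 ∈ m ∧ ∀ f : C', ∃ c : C, algebraMap C C' c = algebraMap C C' c₀ * f := by
  have : Module.Finite C S := Algebra.IsIntegral.finite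
  have : IsNoetherian C S := inferInstance
  have hnc : IsNoetherian C C' :=
    isNoetherian_of_injective (IsScalarTower.toAlgHom C C' S).toLinearMap hinj
  have : IsNoetherianRing C' := isNoetherian_of_tower C hnc
  have hle := abs_le (m.map (algebraMap C C')) M hM hm h1 h2
  let L : Submodule C C' := LinearMap.range (Algebra.linearMap C C')
  have hfg : (⊤ : Submodule C (C' ⧸ L)).FG := by
    have : Module.Finite C C' := inferInstance
    exact Module.Finite.fg_top
  have htop : (⊤ : Submodule C (C' ⧸ L)) ≤ m • (⊤ : Submodule C (C' ⧸ L)) := by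
    intro q _
    obtain ⟨f, rfl⟩ := L.mkQ_surjective q
    obtain ⟨c, hc⟩ := h3 f
    have h4 := hle hc
    have h5 : f - algebraMap C C' c ∈ (m • (⊤ : Submodule C C')) := by
      rw [Ideal.smul_top_eq_map]
      exact h4
    have h6 : L.mkQ f = L.mkQ (f - algebraMap C C' c) := by
      rw [map_sub]
      have h7 : L.mkQ (algebraMap C C' c) = 0 := by
        rw [Submodule.mkQ_apply, Submodule.Quotient.mk_eq_zero]
        exact ⟨c, rfl⟩
      rw [h7, sub_zero]
    rw [h6]
    have h8 := Submodule.mem_map_of_mem (f := L.mkQ) h5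
    rw [Submodule.map_smul''] at h8
    exact Submodule.smul_mono le_rfl le_top h8
  obtain ⟨r, hr, hr'⟩ := Submodule.exists_sub_one_mem_and_smul_eq_zero_of_fg_of_le_smul m
    (⊤ : Submodule C (C' ⧸ L)) hfg htop
  refine ⟨r, hr, fun f => ?_⟩
  have h4 := hr' (L.mkQ f) trivial
  rw [← map_smul, Submodule.mkQ_apply, Submodule.Quotient.mk_eq_zero] at h4
  obtain ⟨c, hc⟩ := h4
  refine ⟨c, ?_⟩
  rw [← Algebra.smul_def]
  exact hc

end Run7.h342.MD
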