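import Pool.Agent.Run7.h342.MD.Defs

/-!
Basic facts on coefficient vectors and the conjugation action.
-/

namespace Run7.h342.MD

open MvPolynomial

noncomputable section

variable {n d : ℕ} {R : Type} [CommRing R]

theorem prod_map_X (s : Multiset (Fin n)) :
    (s.map (X : Fin n → MvPolynomial (Fin n) R)).prod = monomial (Multiset.toFinsupp s) 1 := by
  induction s using Multiset.induction_on with
  | empty => simp
  | cons a s ih =>
    rw [Multiset.map_cons, Multiset.prod_cons, ih, X, monomial_mul, mul_one]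
    congr 1
    rw [← Multiset.singleton_add, map_add, Multiset.toFinsupp_singleton]

theorem toFinsupp_inj (s t : Sym (Fin n) d)
    (h : Multiset.toFinsupp (s : Multiset (Fin n)) = Multiset.toFinsupp (t : Multiset (Fin n))) :
    s = t :=
  Sym.ext (Multiset.toFinsupp.injective h)

theorem eval_pol (c : Ix n d → R) (x : Fin n → R) (i : Fin n) : eval x (pol c i) = ev c x i := by
  unfold pol ev
  rw [map_sum]
  refine Finset.sum_congr rfl fun s _ => ?_
  rw [map_mul, eval_C, map_multiset_prod, Multiset.map_map]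
  simp

theorem coeff_pol (c : Ix n d → R) (i : Fin n) (s : Sym (Fin n) d) :
    coeff (Multiset.toFinsupp (s : Multiset (Fin n))) (pol c i) = c (i, s) := by
  unfold pol
  rw [coeff_sum, Finset.sum_eq_single s]
  · rw [prod_map_X, coeff_C_mul, coeff_monomial, if_pos rfl, mul_one]
  · intro t _ ht
    rw [prod_map_X, coeff_C_mul, coeff_monomial, if_neg fun h => ht (toFinsupp_inj _ _ h), mul_zero]
  · intro h
    exact absurd (Finset.mem_univ _) h

theorem degree_toFinsupp (s : Sym (Fin n) d) :
    Finsupp.degree (Multiset.toFinsupp (s : Multiset (Fin n))) = d :=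
  (Multiset.toFinsupp_sum_eq (s : Multiset (Fin n))).trans s.2

theorem isHomogeneous_prod (s : Sym (Fin n) d) :
    (((s : Multiset (Fin n)).map (X : Fin n → MvPolynomial (Fin n) R)).prod).IsHomogeneous d := by
  rw [prod_map_X]
  exact isHomogeneous_monomial 1 (degree_toFinsupp s)

theorem isHomogeneous_pol (c : Ix n d → R) (i : Fin n) : (pol c i).IsHomogeneous d := by
  unfold pol
  refine IsHomogeneous.sum _ _ _ fun s _ => ?_
  have := (isHomogeneous_C (Fin n) (c (i, s))).mul (isHomogeneous_prod (R := R) s)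
  rwa [zero_add] at this

/-- A form of degree `d` is the sum of its monomials. -/
theorem eq_sum_of_isHomogeneous {P : MvPolynomial (Fin n) R} (h : P.IsHomogeneous d) :
    P = ∑ s : Sym (Fin n) d, C (coeff (Multiset.toFinsupp (s : Multiset (Fin n))) P) *
      ((s : Multiset (Fin n)).map X).prod := by
  ext e
  rw [coeff_sum]
  by_cases he : e.degree = d
  · have hc : Multiset.card (Finsupp.toMultiset e) = d := by
      rw [Finsupp.card_toMultiset, ← he]
      rfl
    set t : Sym (Fin n) d := ⟨Finsupp.toMultiset e, hc⟩ with ht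
    have ht' : Multiset.toFinsupp (t : Multiset (Fin n)) = e := by
      rw [ht]
      exact Finsupp.toMultiset_toFinsupp e
    rw [Finset.sum_eq_single t]
    · rw [prod_map_X, coeff_C_mul, coeff_monomial, ht', if_pos rfl, mul_one]
    · intro s _ hs
      rw [prod_map_X, coeff_C_mul, coeff_monomial, if_neg, mul_zero]
      intro h1
      exact hs (toFinsupp_inj _ _ (h1.trans ht'.symm))
    · intro h1
      exact absurd (Finset.mem_univ _) h1
  · rw [h.coeff_eq_zero he, Finset.sum_eq_zero]
    intro s _
    rw [prod_map_X, coeff_C_mul, coeff_monomial, if_neg, mul_zero]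
    intro h1
    apply he
    rw [← h1]
    exact degree_toFinsupp s

theorem pol_of_coeff {P : Fin n → MvPolynomial (Fin n) R} (h : ∀ i, (P i).IsHomogeneous d)
    (i : Fin n) :
    pol (fun q : Ix n d => coeff (Multiset.toFinsupp (q.2 : Multiset (Fin n))) (P q.1)) i = P i :=
  (eq_sum_of_isHomogeneous (h i)).symm

theorem isHomogeneous_lin (B : Matrix (Fin n) (Fin n) R) (l : Fin n) :
    (∑ m, C (B l m) * X m : MvPolynomial (Fin n) R).IsHomogeneous 1 := by
  refine IsHomogeneous.sum _ _ _ fun m _ => ?_
  have := (isHomogeneous_C (Fin n) (B l m)).mul (isHomogeneous_X R m)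
  rwa [zero_add] at this

theorem pol_tw (A B : Matrix (Fin n) (Fin n) R) (c : Ix n d → R) (i : Fin n) :
    pol (tw A B c) i =
      ∑ j, C (A i j) * aeval (fun l => ∑ m, C (B l m) * X m : Fin n → MvPolynomial (Fin n) R)
        (pol c j) := by
  refine pol_of_coeff (P := fun i => ∑ j, C (A i j) *
    aeval (fun l => ∑ m, C (B l m) * X m : Fin n → MvPolynomial (Fin n) R) (pol c j))
    (fun i => ?_) i
  refine IsHomogeneous.sum _ _ _ fun j _ => ?_
  have h1 : (aeval (fun l => ∑ m, C (B l m) * X m : Fin n → MvPolynomial (Fin n) R)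
      (pol c j)).IsHomogeneous (1 * d) :=
    IsHomogeneous.aeval (isHomogeneous_pol c j) _ fun l => isHomogeneous_lin B l
  have := (isHomogeneous_C (Fin n) (A i j)).mul h1
  rwa [zero_add, one_mul] at this

theorem eval_aeval {σ τ : Type} (x : τ → R) (f : σ → MvPolynomial τ R) (p : MvPolynomial σ R) :
    eval x (aeval f p) = eval (fun i => eval x (f i)) p :=
  eval₂Hom_bind₁ (RingHom.id R) x f p

theorem ev_tw (A B : Matrix (Fin n) (Fin n) R) (c : Ix n d → R) (x : Fin n → R) :
    ev (tw A B c) x = A.mulVec (ev c (B.mulVec x)) := by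
  funext i
  rw [← eval_pol, pol_tw, map_sum]
  simp only [Matrix.mulVec, dotProduct]
  refine Finset.sum_congr rfl fun j _ => ?_
  rw [map_mul, eval_C, ← eval_pol, eval_aeval]
  congr 2
  congr 1
  funext l
  rw [map_sum]
  refine Finset.sum_congr rfl fun m _ => ?_
  rw [map_mul, eval_C, eval_X]

theorem pol_injective {c c' : Ix n d → R} (h : ∀ i, pol c i = pol c' i) : c = c' := by
  funext q
  rw [← coeff_pol c q.1 q.2, h, coeff_pol]

theorem pol_add (c c' : Ix n d → R) (i : Fin n) : pol (c + c') i = pol c i + pol c' i := by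
  unfold pol
  rw [← Finset.sum_add_distrib]
  refine Finset.sum_congr rfl fun s _ => ?_
  rw [Pi.add_apply, map_add, add_mul]

theorem pol_smul (a : R) (c : Ix n d → R) (i : Fin n) : pol (a • c) i = C a * pol c i := by
  unfold pol
  rw [Finset.mul_sum]
  refine Finset.sum_congr rfl fun s _ => ?_
  rw [Pi.smul_apply, smul_eq_mul, map_mul, mul_assoc]

theorem ev_add (c c' : Ix n d → R) (x : Fin n → R) : ev (c + c') x = ev c x + ev c' x := by
  funext i
  rw [Pi.add_apply, ← eval_pol, pol_add, map_add, eval_pol, eval_pol]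

theorem ev_smul (a : R) (c : Ix n d → R) (x : Fin n → R) : ev (a • c) x = a • ev c x := by
  funext i
  rw [Pi.smul_apply, ← eval_pol, pol_smul, map_mul, eval_C, eval_pol]
  rfl

theorem ev_scale (a : R) (c : Ix n d → R) (x : Fin n → R) : ev c (a • x) = a ^ d • ev c x := by
  funext i
  unfold ev
  rw [Pi.smul_apply, smul_eq_mul, Finset.mul_sum]
  refine Finset.sum_congr rfl fun s _ => ?_
  have h1 : ((s : Multiset (Fin n)).map (a • x)).prod =
      a ^ d * ((s : Multiset (Fin n)).map x).prod := by
    have h2 : (s : Multiset (Fin n)).map (a • x) =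
        (s : Multiset (Fin n)).map (fun j => a * x j) := rfl
    have h3 : Multiset.card (s : Multiset (Fin n)) = d := s.2
    rw [h2, Multiset.prod_map_mul, Multiset.map_const', Multiset.prod_replicate, h3]
  rw [h1]
  ring

section field

variable {k : Type} [Field k]

theorem ev_injective [Infinite k] {c c' : Ix n d → k} (h : ∀ x, ev c x = ev c' x) : c = c' := by
  apply pol_injective
  intro i
  apply MvPolynomial.funext
  intro x
  rw [eval_pol, eval_pol, h]

theorem ev_act (g : GL (Fin n) k) (c : Ix n d → k) (x : Fin n → k) :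
    ev (act g c) x = g.1.mulVec (ev c ((g⁻¹ : GL (Fin n) k).1.mulVec x)) := ev_tw _ _ _ _

theorem mulVec_inv_mulVec (g : GL (Fin n) k) (x : Fin n → k) :
    g.1.mulVec ((g⁻¹ : GL (Fin n) k).1.mulVec x) = x := by
  rw [Matrix.mulVec_mulVec]
  have : g.1 * (g⁻¹ : GL (Fin n) k).1 = 1 := g.mul_inv
  rw [this, Matrix.one_mulVec]

theorem inv_mulVec_mulVec (g : GL (Fin n) k) (x : Fin n → k) :
    (g⁻¹ : GL (Fin n) k).1.mulVec (g.1.mulVec x) = x := by
  rw [Matrix.mulVec_mulVec]
  have : (g⁻¹ : GL (Fin n) k).1 * g.1 = 1 := g.inv_mul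
  rw [this, Matrix.one_mulVec]

theorem ev_act_mulVec (g : GL (Fin n) k) (c : Ix n d → k) (x : Fin n → k) :
    ev (act g c) (g.1.mulVec x) = g.1.mulVec (ev c x) := by
  rw [ev_act, inv_mulVec_mulVec]

theorem act_one [Infinite k] (c : Ix n d → k) : act 1 c = c := by
  apply ev_injective
  intro x
  rw [ev_act, inv_one]
  simp

theorem act_mul [Infinite k] (g h : GL (Fin n) k) (c : Ix n d → k) :
    act (g * h) c = act g (act h c) := by
  apply ev_injective
  intro x
  rw [ev_act, ev_act, ev_act, mul_inv_rev, Units.val_mul, Units.val_mul, Matrix.mulVec_mulVec,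
    Matrix.mulVec_mulVec]

theorem act_add [Infinite k] (g : GL (Fin n) k) (c c' : Ix n d → k) :
    act g (c + c') = act g c + act g c' := by
  apply ev_injective
  intro x
  rw [ev_act, ev_add, ev_add, ev_act, ev_act, Matrix.mulVec_add]

theorem act_smul [Infinite k] (g : GL (Fin n) k) (a : k) (c : Ix n d → k) :
    act g (a • c) = a • act g c := by
  apply ev_injective
  intro x
  rw [ev_act, ev_smul, ev_smul, ev_act, Matrix.mulVec_smul]

theorem act_eq_of [Infinite k] (g : GL (Fin n) k) (c c' : Ix n d → k)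
    (h : ∀ x : Fin n → k, ev c' (g.1.mulVec x) = g.1.mulVec (ev c x)) : act g c = c' := by
  apply ev_injective
  intro x
  rw [ev_act, ← h, mulVec_inv_mulVec]

theorem nondeg_act (g : GL (Fin n) k) (c : Ix n d → k) (hc : Nondeg c) : Nondeg (act g c) := by
  intro x hx
  rw [ev_act] at hx
  have h1 := congrArg (fun y => (g⁻¹ : GL (Fin n) k).1.mulVec y) hx
  simp only [inv_mulVec_mulVec, Matrix.mulVec_zero] at h1
  have h2 := hc _ h1
  have h3 := congrArg (fun y => g.1.mulVec y) h2
  simp only [mulVec_inv_mulVec, Matrix.mulVec_zero] at h3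
  exact h3

/-- the action on nondegenerate vectors -/
def gact (g : GL (Fin n) k) (c : U n d k) : U n d k := ⟨act g c.1, nondeg_act g c.1 c.2⟩

/-- invariant functions -/
theorem inv_gact [Infinite k] {φ : U n d k → k} (h : φ ∈ Inv n d k) (g : GL (Fin n) k)
    (c : U n d k) : φ (gact g c) = φ c :=
  h.2 g c (gact g c) fun x => ev_act_mulVec g c.1 x

theorem mem_inv [Infinite k] {φ : U n d k → k} (h : RegU φ)
    (h2 : ∀ (g : GL (Fin n) k) (c : U n d k), φ (gact g c) = φ c) : φ ∈ Inv n d k := by
  refine ⟨h, fun g c c' h3 => ?_⟩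
  have h4 : gact g c = c' := Subtype.ext (act_eq_of g c.1 c'.1 h3)
  rw [← h4, h2]

end field

end

end Run7.h342.MD
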