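import Mathlib

/-!
Moduli of endomorphisms of projective space: definitions.

A self-map of `ℙ^(n-1)` of degree `d` is given by `n` forms of degree `d` in `n` variables, that is
by its vector of coefficients `c : Ix n d → k`.
-/

namespace Run7.h342.MD

open MvPolynomial

noncomputable section

/-- The index set of the coefficients: the number of the form and the monomial. -/
abbrev Ix (n d : ℕ) : Type := Fin n × Sym (Fin n) d

/-- The values of the forms with coefficient vector `c` at the point `x`. -/
def ev {n d : ℕ} {R : Type} [CommRing R] (c : Ix n d → R) (x : Fin n → R) : Fin n → R :=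
  fun i => ∑ s : Sym (Fin n) d, c (i, s) * ((s : Multiset (Fin n)).map x).prod

/-- The forms have no common zero besides the origin. -/
def Nondeg {n d : ℕ} {R : Type} [CommRing R] (c : Ix n d → R) : Prop :=
  ∀ x : Fin n → R, ev c x = 0 → x = 0

/-- The forms with coefficient vector `c`, as polynomials. -/
def pol {n d : ℕ} {R : Type} [CommRing R] (c : Ix n d → R) (i : Fin n) : MvPolynomial (Fin n) R :=
  ∑ s : Sym (Fin n) d, C (c (i, s)) * ((s : Multiset (Fin n)).map X).prod

/-- The coefficient vector of `A ∘ F ∘ B`. -/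
def tw {n d : ℕ} {R : Type} [CommRing R] (A B : Matrix (Fin n) (Fin n) R) (c : Ix n d → R) :
    Ix n d → R := fun q =>
  coeff (Multiset.toFinsupp (q.2 : Multiset (Fin n)))
    (∑ j, C (A q.1 j) * aeval (fun l => ∑ m, C (B l m) * X m : Fin n → MvPolynomial (Fin n) R)
      (pol c j))

/-- The coefficient vector of `Y ∘ F - dF(Y x)`, for a matrix `Y`. -/
def lie {n d : ℕ} {R : Type} [CommRing R] (Y : Matrix (Fin n) (Fin n) R) (c : Ix n d → R) :
    Ix n d → R := fun q =>
  coeff (Multiset.toFinsupp (q.2 : Multiset (Fin n)))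
    (∑ j, C (Y q.1 j) * pol c j - ∑ l, (∑ m, C (Y l m) * X m) * pderiv l (pol c q.1))

section field

variable (n d : ℕ) (k : Type) [Field k]

/-- The nondegenerate coefficient vectors, that is the affine cone over `End_d^(n-1)`. -/
abbrev U : Type := {c : Ix n d → k // Nondeg c}

variable {n d k}

/-- conjugation of the coefficient vector `c` by `g` : `g ∘ F ∘ g⁻¹`. -/
def act (g : GL (Fin n) k) (c : Ix n d → k) : Ix n d → k :=
  tw (g : Matrix (Fin n) (Fin n) k) ((g⁻¹ : GL (Fin n) k) : Matrix (Fin n) (Fin n) k) c

/-- matrices as points of affine space -/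
def ent {R : Type} (A : Matrix (Fin n) (Fin n) R) : Fin n × Fin n → R := fun p => A p.1 p.2

/-- Representation of a function on the nondegenerate vectors as a fraction of polynomials. -/
def RepU (φ : U n d k → k) (P Q : MvPolynomial (Ix n d) k) : Prop :=
  ∀ x : U n d k, eval x.1 Q ≠ 0 ∧ φ x = eval x.1 P / eval x.1 Q

/-- Regular functions on the nondegenerate vectors. -/
def RegU (φ : U n d k → k) : Prop := ∃ P Q, RepU φ P Q

/-- Representation of a function on `GL_n`. -/
def RepG (f : GL (Fin n) k → k) (p : MvPolynomial (Fin n × Fin n) k) (m : ℕ) : Prop :=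
  ∀ g : GL (Fin n) k, f g * (g : Matrix (Fin n) (Fin n) k).det ^ m =
    eval (ent (g : Matrix (Fin n) (Fin n) k)) p

/-- Regular functions on `GL_n`. -/
def RegG (f : GL (Fin n) k → k) : Prop := ∃ p m, RepG f p m

end field

section alg

variable (n d : ℕ) (k : Type) [Field k]

/-- The algebra of regular functions on the nondegenerate vectors. -/
def OU : Subalgebra k (U n d k → k) where
  carrier := {φ | RegU φ}
  mul_mem' := by
    rintro a b ⟨P, Q, h⟩ ⟨P', Q', h'⟩
    refine ⟨P * P', Q * Q', fun x => ⟨?_, ?_⟩⟩
    · rw [map_mul]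
      exact mul_ne_zero (h x).1 (h' x).1
    · rw [map_mul, map_mul, Pi.mul_apply, (h x).2, (h' x).2]
      have h1 := (h x).1
      have h2 := (h' x).1
      field_simp
  add_mem' := by
    rintro a b ⟨P, Q, h⟩ ⟨P', Q', h'⟩
    refine ⟨P * Q' + P' * Q, Q * Q', fun x => ⟨?_, ?_⟩⟩
    · rw [map_mul]
      exact mul_ne_zero (h x).1 (h' x).1
    · rw [map_mul, map_add, map_mul, map_mul, Pi.add_apply, (h x).2, (h' x).2]
      have h1 := (h x).1
      have h2 := (h' x).1
      field_simp
  algebraMap_mem' := by
    intro r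
    refine ⟨C r, 1, fun x => ⟨?_, ?_⟩⟩
    · rw [map_one]
      exact one_ne_zero
    · rw [map_one, eval_C, div_one]
      rfl

/-- The algebra of regular functions on `GL_n`. -/
def OG : Subalgebra k (GL (Fin n) k → k) where
  carrier := {f | RegG f}
  mul_mem' := by
    rintro a b ⟨P, m, h⟩ ⟨P', m', h'⟩
    refine ⟨P * P', m + m', fun x => ?_⟩
    rw [map_mul, ← h x, ← h' x, Pi.mul_apply, pow_add]
    ring
  add_mem' := by
    rintro a b ⟨P, m, h⟩ ⟨P', m', h'⟩
    refine ⟨P * (Matrix.mvPolynomialX (Fin n) (Fin n) k).det ^ m' +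
      P' * (Matrix.mvPolynomialX (Fin n) (Fin n) k).det ^ m, m + m', fun x => ?_⟩
    have h3 : eval (ent (x : Matrix (Fin n) (Fin n) k))
        (Matrix.mvPolynomialX (Fin n) (Fin n) k).det = (x : Matrix (Fin n) (Fin n) k).det := by
      rw [Matrix.eval_det_mvPolynomialX]
      rfl
    rw [map_add, map_mul, map_mul, map_pow, map_pow, h3, ← h x, ← h' x, Pi.add_apply, pow_add]
    ring
  algebraMap_mem' := by
    intro r
    refine ⟨C r, 0, fun x => ?_⟩
    rw [pow_zero, mul_one, eval_C]
    rfl

/-- The algebra of the invariant regular functions; the moduli space `M_d^(n-1)` is its spectrum.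
Invariance is stated without reference to `act`: if `g ∘ F = F' ∘ g`, then the values at `F` and
`F'` agree. -/
def Inv : Subalgebra k (U n d k → k) where
  carrier := {φ | RegU φ ∧ ∀ (g : GL (Fin n) k) (c c' : U n d k),
    (∀ x : Fin n → k, ev c'.1 (g.1.mulVec x) = g.1.mulVec (ev c.1 x)) → φ c' = φ c}
  mul_mem' := by
    rintro a b ⟨h1, h2⟩ ⟨h3, h4⟩
    refine ⟨(OU n d k).mul_mem h1 h3, fun g c c' h => ?_⟩
    rw [Pi.mul_apply, Pi.mul_apply, h2 g c c' h, h4 g c c' h]
  add_mem' := by
    rintro a b ⟨h1, h2⟩ ⟨h3, h4⟩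
    refine ⟨(OU n d k).add_mem h1 h3, fun g c c' h => ?_⟩
    rw [Pi.add_apply, Pi.add_apply, h2 g c c' h, h4 g c c' h]
  algebraMap_mem' := by
    intro r
    exact ⟨(OU n d k).algebraMap_mem r, fun _ _ _ _ => rfl⟩

variable {n d k}

/-- The point of the moduli space given by `c`: the ideal of the invariant functions with
value zero at `c`. -/
def pt (c : U n d k) : Ideal (Inv n d k) :=
  RingHom.ker ((Pi.evalRingHom (fun _ : U n d k => k) c).comp (Inv n d k).subtype)

instance (c : U n d k) : (pt c).IsPrime := RingHom.ker_isPrime _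

/-- directional derivative of a polynomial -/
def dd {σ : Type} [Fintype σ] (P : MvPolynomial σ k) (c v : σ → k) : k :=
  ∑ q, v q * eval c (pderiv q P)

open Classical in
/-- directional derivative at `c` of a regular function on the nondegenerate vectors -/
def dU (φ : U n d k → k) (c : U n d k) (v : Ix n d → k) : k :=
  if h : RegU φ then
    (dd h.choose c.1 v * eval c.1 h.choose_spec.choose -
      eval c.1 h.choose * dd h.choose_spec.choose c.1 v) / eval c.1 h.choose_spec.choose ^ 2
  else 0

open Classical in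
/-- derivative at the unit element in direction `Y` of a regular function on `GL_n` -/
def dG (f : GL (Fin n) k → k) (Y : Matrix (Fin n) (Fin n) k) : k :=
  if h : RegG f then
    dd h.choose (ent 1) (ent Y) - h.choose_spec.choose * Y.trace * eval (ent 1) h.choose
  else 0

end alg

end

end Run7.h342.MD
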