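import Pool.Agent.Run7.h342.MD.Lin
import Pool.Agent.Run7.h342.MD.Abs

/-!
Piece CON.
-/

namespace Run7.h342.MD

open MvPolynomial

noncomputable section

variable {n d : ℕ} {k : Type} [Field k]

variable (n d k) in
theorem t_CON [IsAlgClosed k] [CharZero k] (hn : 3 ≤ n) (hd : 2 ≤ d) (h1 : S_RES n d k)
    (hRU : S_REPU n d k) (hD : S_DU n d k) (hG : S_DG n k) (hO : S_ORB n d k) (hI : S_INT n d k)
    (hF : S_INF n d k) (hE : S_ETA n d k) : S_CON n d k := by
  obtain ⟨Θ, hΘ⟩ := h1
  have hft := (hRU Θ hΘ).2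
  intro h hs
  have hCC' : Cs h ≤ Cm n d k := by
    rintro _ ⟨φ, hφ, rfl⟩
    exact hO.reg φ hφ h
  have hC'G : Cm n d k ≤ OG n k := fun f hf => hf.1
  have hCfg : (Cs h).FG := ((Subalgebra.fg_iff_finiteType _).mpr hft).map (orb h)
  have hCft : Algebra.FiniteType k (Cs h) := (Subalgebra.fg_iff_finiteType _).mp hCfg
  have hnoeth : IsNoetherianRing (Cs h) := Algebra.FiniteType.isNoetherianRing k _
  let _ : Algebra (Cs h) (Cm n d k) := (Subalgebra.inclusion hCC').toRingHom.toAlgebra
  let _ : Algebra (Cm n d k) (OG n k) := (Subalgebra.inclusion hC'G).toRingHom.toAlgebra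
  let _ : Algebra (Cs h) (OG n k) := (Subalgebra.inclusion (hCC'.trans hC'G)).toRingHom.toAlgebra
  have : IsScalarTower (Cs h) (Cm n d k) (OG n k) := IsScalarTower.of_algebraMap_eq fun _ => rfl
  have : IsScalarTower (Cs h) (Cm n d k) (GL (Fin n) k → k) :=
    IsScalarTower.of_algebraMap_eq fun _ => rfl
  have : IsScalarTower (Cs h) (OG n k) (GL (Fin n) k → k) :=
    IsScalarTower.of_algebraMap_eq fun _ => rfl
  have : IsScalarTower k (Cs h) (OG n k) := IsScalarTower.of_algebraMap_eq fun _ => rfl
  have : Algebra.FiniteType k (OG n k) := (Subalgebra.fg_iff_finiteType _).mp OG_fg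
  have : Algebra.FiniteType (Cs h) (OG n k) := Algebra.FiniteType.of_restrictScalars_finiteType k _ _
  have : Algebra.IsIntegral (Cs h) (OG n k) := by
    refine ⟨fun f => ?_⟩
    exact (isIntegral_algebraMap_iff (B := (GL (Fin n) k → k)) Subtype.val_injective).mp
      (hI h f.1 f.2)
  let m : Ideal (Cs h) := RingHom.ker ((Pi.evalRingHom (fun _ : GL (Fin n) k => k) 1).comp
    (Cs h).toSubring.subtype)
  have hm : ∀ f : Cs h, f ∈ m ↔ f.1 1 = 0 := fun _ => Iff.rfl
  have hMtop : Mx n d k ≠ ⊤ := by
    rw [Ideal.ne_top_iff_one, mem_Mx]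
    exact one_ne_zero
  have hmM : m.map (algebraMap (Cs h) (Cm n d k)) ≤ Mx n d k := by
    rw [Ideal.map_le_iff_le_comap]
    intro f hf
    exact hf
  obtain ⟨c₀, hc₀, hc₀'⟩ := abs_con (C := Cs h) (C' := Cm n d k) (S := OG n k)
    (fun a b hab => Subtype.ext (congrArg (fun z : OG n k => z.1) hab)) m (Mx n d k) hMtop hmM
    (by
      intro P hP hJP
      obtain ⟨g, hg⟩ := max_sub (Cm n d k) hC'G (fun f hf => (hI h f hf).tower_top) P hP
      have hfix : act g h.1 = h.1 := by
        funext q
        let φ : U n d k → k := fun x => (∑ q', (Pi.single q 1 : Ix n d → k) q' * x.1 q') + -h.1 q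
        have hφ : RegU φ := reg_lin _ _
        have hφv : ∀ x : U n d k, φ x = x.1 q - h.1 q := by
          intro x
          simp only [φ]
          rw [Finset.sum_eq_single q, Pi.single_eq_same, one_mul, sub_eq_add_neg]
          · intro b _ hb
            rw [Pi.single_eq_of_ne hb, zero_mul]
          · intro hq
            exact absurd (Finset.mem_univ q) hq
        have h2 : (⟨orb h φ, φ, hφ, rfl⟩ : Cs h) ∈ m := by
          rw [hm]
          show φ (gact 1 h) = 0
          rw [gact_one, hφv, sub_self]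
        have h3 := hJP (Ideal.mem_map_of_mem _ h2)
        rw [hg] at h3
        have h4 : φ (gact g h) = 0 := h3
        rw [hφv, sub_eq_zero] at h4
        exact h4
      obtain ⟨a, ha⟩ := hs g hfix
      have ha1 := pow_of_scalar (by omega) (by omega) h g a ha hfix
      ext f
      rw [hg, mem_Mx]
      have h5 := f.2.2 a 1 g ha1 (by rw [ha]; rfl)
      rw [h5])
    (by
      intro f hf
      rw [mem_Mx] at hf
      have hfr : RegG f.1 := f.2.1
      let D : Matrix (Fin n) (Fin n) k →ₗ[k] k :=
        { toFun := fun Y => dG f.1 Y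
          map_add' := hG.add_v f.1 hfr
          map_smul' := hG.smul_v f.1 hfr }
      have hinj : LinearMap.ker (lieL h.1) = ⊥ := by
        rw [LinearMap.ker_eq_bot']
        intro Y hY
        exact hF h.1 h.2 Y hY
      obtain ⟨L', hL'⟩ := LinearMap.exists_leftInverse_of_injective (lieL h.1) hinj
      let l : (Ix n d → k) →ₗ[k] k := D.comp L'
      have hl : ∀ Y, l (lie Y h.1) = dG f.1 Y := by
        intro Y
        have h2 : L' (lieL h.1 Y) = Y := congrArg (fun z => z Y) hL'
        show D (L' (lieL h.1 Y)) = dG f.1 Y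
        rw [h2]
        rfl
      have hls : ∀ v : Ix n d → k, l v = ∑ q, l (Pi.single q 1) * v q := by
        intro v
        rw [LinearMap.pi_apply_eq_sum_univ l v]
        refine Finset.sum_congr rfl fun q _ => ?_
        rw [smul_eq_mul, mul_comm]
        congr 2
        funext i
        by_cases hi : i = q
        · subst hi
          simp
        · simp [hi, Ne.symm hi]
      let φ : U n d k → k := fun x => (∑ q, l (Pi.single q 1) * x.1 q) + -(l h.1)
      have hφ : RegU φ := reg_lin _ _
      have hφm : orb h φ ∈ Cs h := ⟨φ, hφ, rfl⟩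
      have hφ1 : orb h φ 1 = 0 := by
        show φ (gact 1 h) = 0
        rw [gact_one]
        simp only [φ]
        rw [← hls, add_neg_cancel]
      have h2 : (⟨orb h φ, hφm⟩ : Cs h) ∈ m := (hm _).mpr hφ1
      have h3 := Ideal.mem_map_of_mem (algebraMap (Cs h) (Cm n d k)) h2
      let F : Cm n d k := algebraMap (Cs h) (Cm n d k) ⟨orb h φ, hφm⟩
      have hF1 : F.1 = orb h φ := rfl
      have h4 : f - F ∈ Mx n d k ^ 2 := by
        apply hE
        · show f.1 1 - F.1 1 = 0
          rw [hf, hF1, hφ1, sub_self]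
        · intro Y
          have h5 : (f - F).1 = f.1 + (fun _ => (-1 : k)) * orb h φ := by
            funext g
            show f.1 g - F.1 g = f.1 g + (-1) * orb h φ g
            rw [hF1]
            ring
          have hreg : RegG (orb h φ) := (hO.reg φ hφ h).1
          have hregc : RegG (fun _ : GL (Fin n) k => (-1 : k)) := (OG n k).algebraMap_mem (-1)
          rw [h5, hG.add _ _ hfr ((OG n k).mul_mem hregc hreg), hG.mul _ _ hregc hreg, hG.const,
            hO.der φ hφ h Y]
          have h6 : dU φ h (lie Y h.1) = dG f.1 Y := by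
            rw [← hl, hls]
            exact hD.lin _ _ h (lie Y h.1)
          rw [h6]
          ring
      have h5 : f = F + (f - F) := by ring
      rw [h5]
      exact Submodule.add_mem_sup h3 h4)
    (by
      intro f
      refine ⟨algebraMap k (Cs h) (f.1 1), ?_⟩
      rw [mem_Mx]
      show f.1 1 - f.1 1 = 0
      rw [sub_self])
  refine ⟨c₀.1, c₀.2, ?_, fun f hf => ?_⟩
  · have h2 : c₀.1 1 - 1 = 0 := hc₀
    rw [sub_eq_zero.mp h2]
    exact one_ne_zero
  · obtain ⟨c, hc⟩ := hc₀' ⟨f, hf⟩
    have h2 : c.1 = c₀.1 * f := congrArg (fun z : Cm n d k => z.1) hc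
    rw [← h2]
    exact c.2

end

end Run7.h342.MD
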