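import Pool.Agent.Run7.h342.MD.Glue
import Pool.Agent.Run7.h342.MD.PCon
import Pool.Agent.Run7.h622.MD.ELIM
import Pool.Agent.Run7.h890.MD.INCA
import Pool.Agent.Run7.h234.MD.INC
import Pool.Agent.Run7.h992.MD.REPU
import Pool.Agent.Run7.h622.MD.DU
import Pool.Agent.Run7.h594.MD.DG
import Pool.Agent.Run7.h675.MD.ORB
import Pool.Agent.Run7.h267.MD.INT
import Pool.Agent.Run7.h594.MD.INF
import Pool.Agent.Run7.h713.MD.DIAG
import Pool.Agent.Run7.h713.MD.COMB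
import Pool.Agent.Run7.h713.MD.KD
import Pool.Agent.Run7.h992.MD.COD
import Pool.Agent.Run7.h198.MD.F3
import Pool.Agent.Run7.h198.MD.TRD
import Pool.Agent.Run7.h464.MD.SLI
import Pool.Agent.Run7.h999.MD.EXP
import Pool.Agent.Run7.h999.MD.F1
import Pool.Agent.Run7.h779.MD.REY
import Pool.Agent.Run7.h939.MD.JAC
import Pool.Agent.Run7.h939.MD.SPAN
import Pool.Agent.Run7.h939.MD.ETA
import Pool.Agent.Run7.h711.MD.MAIN

/-!
Composition of the pieces.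
-/

namespace Run7.h342.MD

variable (n d : ℕ) (k : Type) [Field k] [IsAlgClosed k] [CharZero k]

theorem final (hn : 3 ≤ n) (hd : 2 ≤ d) : S_MAIN n d k :=
  glue n d k (Run7.h622.MD.t_ELIM n d k hn hd) (Run7.h890.MD.t_INCA n d k hn hd)
    (Run7.h234.MD.t_INC n d k hn hd) (Run7.h992.MD.t_REPU n d k hn hd)
    (Run7.h622.MD.t_DU n d k hn hd) (Run7.h594.MD.t_DG n k)
    (Run7.h675.MD.t_ORB n d k hn hd) (Run7.h267.MD.t_INT n d k hn hd)
    (Run7.h594.MD.t_INF n d k hn hd) (Run7.h713.MD.t_DIAG hn hd)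
    (Run7.h713.MD.t_COMB hn hd) (Run7.h992.MD.t_COD n d k hn hd)
    (Run7.h198.MD.t_F3 hn hd) (Run7.h939.MD.t_ETA n d k hn hd) (t_CON n d k hn hd) (Run7.h464.MD.t_SLI n d k hn hd)
    (Run7.h999.MD.t_EXP hn hd) (Run7.h779.MD.t_REY n k) (Run7.h999.MD.t_F1 hn hd)
    (Run7.h939.MD.t_JAC n d k hn hd) Run7.h198.MD.t_TRD (Run7.h713.MD.t_KD n d k hn hd)
    (Run7.h939.MD.t_SPAN n d k hn hd) (Run7.h711.MD.t_MAIN n d k hn hd)

end Run7.h342.MD
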