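import Pool.Agent.Run7.h342.MD.Stm

/-!
Composition of the pieces.
-/

namespace Run7.h342.MD

open MvPolynomial

variable (n d : ℕ) (k : Type) [Field k] [IsAlgClosed k] [CharZero k]

theorem t_RES (h1 : S_ELIM n d k) (h2 : S_INC n d k) : S_RES n d k := by
  obtain ⟨Θ, hirr, hdiv, hgen⟩ := h2
  refine ⟨Θ, hirr, fun c => ⟨fun h => ?_, fun h => ?_⟩, hgen⟩
  · intro x hx
    by_contra hne
    exact h (by rw [← aeval_eq_eval]; exact hgen k c x hne hx)
  · obtain ⟨P, hP, hP'⟩ := h1 c h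
    obtain ⟨Q, rfl⟩ := hdiv P hP'
    rw [map_mul] at hP
    exact left_ne_zero_of_mul hP

theorem glue
    (t_ELIM : S_ELIM n d k)
    (t_INCA : S_INCA n d k)
    (t_INC : S_INCA n d k → S_INC n d k)
    (t_REPU : S_REPU n d k)
    (t_DU : S_RES n d k → S_REPU n d k → S_DU n d k)
    (t_DG : S_DG n k)
    (t_ORB : S_RES n d k → S_REPU n d k → S_DU n d k → S_DG n k → S_ORB n d k)
    (t_INT : S_RES n d k → S_INT n d k)
    (t_INF : S_INF n d k)
    (t_DIAG : S_DIAG n d k)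
    (t_COMB : S_COMB n d k)
    (t_COD : S_COMB n d k → S_COD n d k)
    (t_F3 : S_COMB n d k → S_DIAG n d k → S_F3 n d k)
    (t_ETA : S_DG n k → S_ETA n d k)
    (t_CON : S_RES n d k → S_REPU n d k → S_DU n d k → S_DG n k → S_ORB n d k → S_INT n d k →
      S_INF n d k → S_ETA n d k → S_CON n d k)
    (t_SLI : S_RES n d k → S_REPU n d k → S_DU n d k → S_DG n k → S_ORB n d k → S_INT n d k →
      S_INF n d k → S_ETA n d k → S_CON n d k → S_SLI n d k)
    (t_EXP : S_RES n d k → S_REPU n d k → S_EXP n d k)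
    (t_REY : S_REY n k)
    (t_F1 : S_DU n d k → S_EXP n d k → S_REY n k → S_SLI n d k → S_F1 n d k)
    (t_JAC : S_RES n d k → S_REPU n d k → S_DU n d k → S_JAC n d k)
    (t_TRD : S_TRD)
    (t_KD : S_RES n d k → S_REPU n d k → S_DU n d k → S_ORB n d k → S_INF n d k →
      S_JAC n d k → S_TRD → S_KD n d k)
    (t_SPAN : S_RES n d k → S_REPU n d k → S_DU n d k → S_SPAN n d k)
    (t_MAIN : S_RES n d k → S_REPU n d k → S_DU n d k → S_ORB n d k → S_INF n d k →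
      S_DIAG n d k → S_COD n d k → S_F3 n d k → S_F1 n d k → S_KD n d k → S_SPAN n d k →
      S_MAIN n d k) : S_MAIN n d k := by
  have h1 := t_RES n d k t_ELIM (t_INC t_INCA)
  have h2 := t_DU h1 t_REPU
  have h3 := t_ORB h1 t_REPU h2 t_DG
  have h4 := t_INT h1
  have h5 := t_ETA t_DG
  have h6 := t_CON h1 t_REPU h2 t_DG h3 h4 t_INF h5
  have h7 := t_SLI h1 t_REPU h2 t_DG h3 h4 t_INF h5 h6
  have h8 := t_F1 h2 (t_EXP h1 t_REPU) t_REY h7
  have h9 := t_JAC h1 t_REPU h2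
  have h10 := t_KD h1 t_REPU h2 h3 t_INF h9 t_TRD
  have h11 := t_SPAN h1 t_REPU h2
  exact t_MAIN h1 t_REPU h2 h3 t_INF t_DIAG (t_COD t_COMB) (t_F3 t_COMB t_DIAG) h8 h10 h11

end Run7.h342.MD
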