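import Pool.Agent.Run7.h342.MD.Pts

/-!
Linear functions, scalars in stabilizers.
-/

namespace Run7.h342.MD

open MvPolynomial

noncomputable section

variable {n d : ℕ} {k : Type} [Field k]

theorem lie_add {R : Type} [CommRing R] (Y Y' : Matrix (Fin n) (Fin n) R) (c : Ix n d → R) :
    lie (Y + Y') c = lie Y c + lie Y' c := by
  funext q
  simp only [lie, Pi.add_apply, Matrix.add_apply, map_add]
  rw [← coeff_add]
  congr 1
  simp only [add_mul, Finset.sum_add_distrib]
  ring

theorem lie_smul {R : Type} [CommRing R] (a : R) (Y : Matrix (Fin n) (Fin n) R)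
    (c : Ix n d → R) : lie (a • Y) c = a • lie Y c := by
  funext q
  simp only [lie, Pi.smul_apply, Matrix.smul_apply, smul_eq_mul, map_mul]
  rw [← coeff_C_mul]
  congr 1
  rw [mul_sub, Finset.mul_sum, Finset.mul_sum]
  congr 1
  · refine Finset.sum_congr rfl fun j _ => ?_
    rw [mul_assoc]
  · refine Finset.sum_congr rfl fun l _ => ?_
    rw [← mul_assoc, Finset.mul_sum]
    congr 1
    refine Finset.sum_congr rfl fun m _ => ?_
    rw [mul_assoc]

/-- `lie` as a linear map -/
def lieL (c : Ix n d → k) : Matrix (Fin n) (Fin n) k →ₗ[k] (Ix n d → k) where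
  toFun Y := lie Y c
  map_add' Y Y' := lie_add Y Y' c
  map_smul' a Y := lie_smul a Y c

theorem reg_lin (l : Ix n d → k) (a : k) : RegU (fun x : U n d k => (∑ q, l q * x.1 q) + a) := by
  refine ⟨(∑ q : Ix n d, C (l q) * X q : MvPolynomial (Ix n d) k) + C a, 1, fun x => ⟨?_, ?_⟩⟩
  · rw [map_one]
    exact one_ne_zero
  · rw [map_one, div_one, map_add, eval_C, map_sum]
    simp only [map_mul, eval_C, eval_X]

theorem gact_one [Infinite k] (h : U n d k) : gact 1 h = h := Subtype.ext (act_one h.1)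

theorem pow_of_scalar (hn : 0 < n) (hd : 1 ≤ d) (h : U n d k) (g : GL (Fin n) k) (a : k)
    (hg : (g : Matrix (Fin n) (Fin n) k) = a • (1 : Matrix (Fin n) (Fin n) k))
    (hact : act g h.1 = h.1) : a ^ (d - 1) = 1 := by
  have h1 : ∃ x : Fin n → k, ev h.1 x ≠ 0 := by
    by_contra hcon
    push Not at hcon
    have h2 := h.2 (fun _ => 1) (hcon _)
    have h3 := congrFun h2 ⟨0, hn⟩
    simp at h3
  obtain ⟨x, hx⟩ := h1
  have h2 := ev_act_mulVec g h.1 x
  have hgv : ∀ y : Fin n → k, g.1.mulVec y = a • y := by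
    intro y
    rw [hg, Matrix.smul_mulVec, Matrix.one_mulVec]
  rw [hact, hgv, hgv, ev_scale] at h2
  obtain ⟨i, hi⟩ := Function.ne_iff.mp hx
  have h3 := congrFun h2 i
  simp only [Pi.smul_apply, smul_eq_mul] at h3
  have h4 := mul_right_cancel₀ hi h3
  have ha : a ≠ 0 := by
    rintro rfl
    have h5 := det_ne g
    have hne : Nonempty (Fin n) := ⟨⟨0, hn⟩⟩
    rw [hg, zero_smul, Matrix.det_zero] at h5
    exact h5 rfl
  have h5 : a ^ (d - 1) * a = 1 * a := by
    rw [← pow_succ, Nat.sub_add_cancel hd, h4, one_mul]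
  exact mul_right_cancel₀ ha h5

theorem mem_Mx (f : Cm n d k) : f ∈ Mx n d k ↔ f.1 1 = 0 := Iff.rfl

end

end Run7.h342.MD
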