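import Pool.Agent.Run7.h342.MD.Stm

/-!
Maximal ideals of algebras of functions on `GL_n` are points.
-/

namespace Run7.h342.MD

open MvPolynomial

noncomputable section

variable {n : ℕ} {k : Type} [Field k]

/-- entries and the inverse of the determinant -/
def gen (n : ℕ) (k : Type) [Field k] : (Fin n × Fin n) ⊕ Unit → GL (Fin n) k → k
  | .inl p => fun g => (g : Matrix (Fin n) (Fin n) k) p.1 p.2
  | .inr _ => fun g => (g : Matrix (Fin n) (Fin n) k).det⁻¹

theorem det_ne (g : GL (Fin n) k) : (g : Matrix (Fin n) (Fin n) k).det ≠ 0 :=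
  ((Matrix.isUnit_iff_isUnit_det _).mp g.isUnit).ne_zero

theorem aeval_fun {X σ : Type} (e : σ → X → k) (p : MvPolynomial σ k) (x : X) :
    aeval e p x = eval (fun s => e s x) p := by
  have h1 : (Pi.evalAlgHom k (fun _ : X => k) x).comp (aeval e) =
      (aeval (fun s => e s x) : MvPolynomial σ k →ₐ[k] k) := by
    apply MvPolynomial.algHom_ext
    intro s
    simp
  have h2 := congrArg (fun φ : MvPolynomial σ k →ₐ[k] k => φ p) h1
  simpa [aeval_eq_eval] using h2

theorem gen_mem (s : (Fin n × Fin n) ⊕ Unit) : gen n k s ∈ OG n k := by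
  rcases s with p | u
  · refine ⟨X p, 0, fun g => ?_⟩
    rw [pow_zero, mul_one, eval_X]
    rfl
  · refine ⟨1, 1, fun g => ?_⟩
    rw [map_one, pow_one]
    exact inv_mul_cancel₀ (det_ne g)

theorem OG_eq : OG n k = Algebra.adjoin k (Set.range (gen n k)) := by
  apply le_antisymm
  · rintro f ⟨p, m, h⟩
    have h1 : f = aeval (gen n k) (rename Sum.inl p * X (Sum.inr ()) ^ m) := by
      funext g
      rw [aeval_fun, map_mul, map_pow, eval_X, eval_rename]
      have h2 := h g
      have h3 : (fun s => gen n k s g) ∘ Sum.inl = ent (g : Matrix (Fin n) (Fin n) k) := by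
        funext q
        rfl
      rw [h3, ← h2]
      have h4 : gen n k (Sum.inr ()) g = (g : Matrix (Fin n) (Fin n) k).det⁻¹ := rfl
      rw [h4, mul_assoc, ← mul_pow, mul_inv_cancel₀ (det_ne g), one_pow, mul_one]
    rw [h1, Algebra.adjoin_range_eq_range_aeval]
    exact ⟨_, rfl⟩
  · rw [Algebra.adjoin_le_iff]
    rintro _ ⟨s, rfl⟩
    exact gen_mem s

theorem OG_fg : (OG n k).FG := by
  rw [OG_eq]
  exact ⟨(Set.finite_range _).toFinset, by rw [Set.Finite.coe_toFinset]⟩

variable [IsAlgClosed k]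

/-- the maximal ideals of `OG` are points -/
theorem max_OG (Q : Ideal (OG n k)) (hQ : Q.IsMaximal) :
    ∃ g : GL (Fin n) k, ∀ f : OG n k, f ∈ Q ↔ f.1 g = 0 := by
  let π : MvPolynomial ((Fin n × Fin n) ⊕ Unit) k →ₐ[k] OG n k :=
    aeval fun s => (⟨gen n k s, gen_mem s⟩ : OG n k)
  have hπ : ∀ p, (π p).1 = aeval (gen n k) p := by
    intro p
    have h1 : (OG n k).val.comp π = aeval (gen n k) := by
      apply MvPolynomial.algHom_ext
      intro s
      simp [π]
    exact congrArg (fun φ : MvPolynomial ((Fin n × Fin n) ⊕ Unit) k →ₐ[k] (GL (Fin n) k → k) =>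
      φ p) h1
  have hsurj : Function.Surjective π := by
    rintro ⟨f, hf⟩
    have h1 : f ∈ Algebra.adjoin k (Set.range (gen n k)) := by rwa [← OG_eq]
    rw [Algebra.adjoin_range_eq_range_aeval] at h1
    obtain ⟨p, hp⟩ := h1
    refine ⟨p, Subtype.ext ?_⟩
    rw [hπ]
    exact hp
  have hmax : (Q.comap π).IsMaximal := Ideal.comap_isMaximal_of_surjective π hsurj
  rw [MvPolynomial.isMaximal_iff_eq_vanishingIdeal_singleton] at hmax
  obtain ⟨x, hx⟩ := hmax
  have hmem : ∀ p, π p ∈ Q ↔ eval x p = 0 := by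
    intro p
    rw [← Ideal.mem_comap, hx, MvPolynomial.mem_vanishingIdeal_singleton_iff, aeval_eq_eval]
  let A : Matrix (Fin n) (Fin n) k := fun i j => x (Sum.inl (i, j))
  have hdet : x (Sum.inr ()) * A.det = 1 := by
    have h1 : π (X (Sum.inr ()) *
        rename Sum.inl (Matrix.mvPolynomialX (Fin n) (Fin n) k).det - 1) = 0 := by
      apply Subtype.ext
      rw [hπ]
      funext g
      rw [aeval_fun, map_sub, map_one, map_mul, eval_X, eval_rename]
      have h3 : (fun s => gen n k s g) ∘ Sum.inl = ent (g : Matrix (Fin n) (Fin n) k) := by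
        funext q
        rfl
      have h4 : eval (ent (g : Matrix (Fin n) (Fin n) k))
          (Matrix.mvPolynomialX (Fin n) (Fin n) k).det = (g : Matrix (Fin n) (Fin n) k).det := by
        rw [Matrix.eval_det_mvPolynomialX]
        rfl
      have h5 : gen n k (Sum.inr ()) g = (g : Matrix (Fin n) (Fin n) k).det⁻¹ := rfl
      rw [h3, h4, h5, inv_mul_cancel₀ (det_ne g), sub_self]
      rfl
    have h2 := (hmem _).mp (h1 ▸ Q.zero_mem)
    rw [map_sub, map_one, map_mul, eval_X, eval_rename, sub_eq_zero] at h2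
    rw [← h2]
    congr 1
    have h4 : eval (ent A) (Matrix.mvPolynomialX (Fin n) (Fin n) k).det = A.det := by
      rw [Matrix.eval_det_mvPolynomialX]
      rfl
    rw [← h4]
    rfl
  have hA : IsUnit A.det := by
    rw [isUnit_iff_ne_zero]
    intro h
    rw [h, mul_zero] at hdet
    exact zero_ne_one hdet
  let g : GL (Fin n) k := ((Matrix.isUnit_iff_isUnit_det A).mpr hA).unit
  have hg : (g : Matrix (Fin n) (Fin n) k) = A := rfl
  refine ⟨g, fun f => ?_⟩
  obtain ⟨p, rfl⟩ := hsurj f
  rw [hmem, hπ, aeval_fun]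
  have h6 : (fun s => gen n k s g) = x := by
    funext s
    rcases s with q | u
    · rfl
    · show ((g : Matrix (Fin n) (Fin n) k).det)⁻¹ = x (Sum.inr ())
      rw [hg]
      exact (eq_inv_of_mul_eq_one_left hdet).symm
  rw [h6]

/-- the maximal ideals of a subalgebra over which `OG` is integral are points -/
theorem max_sub (D : Subalgebra k (GL (Fin n) k → k)) (hD : D ≤ OG n k)
    (hint : ∀ f ∈ OG n k, IsIntegral D f) (P : Ideal D) (hP : P.IsMaximal) :
    ∃ g : GL (Fin n) k, ∀ f : D, f ∈ P ↔ f.1 g = 0 := by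
  let _ : Algebra D (OG n k) := (Subalgebra.inclusion hD).toRingHom.toAlgebra
  have hmap : ∀ f : D, (algebraMap D (OG n k) f).1 = f.1 := fun _ => rfl
  have : IsScalarTower D (OG n k) (GL (Fin n) k → k) := IsScalarTower.of_algebraMap_eq fun _ => rfl
  have : Algebra.IsIntegral D (OG n k) := by
    refine ⟨fun f => ?_⟩
    exact (isIntegral_algebraMap_iff (B := (GL (Fin n) k → k)) Subtype.val_injective).mp
      (hint f.1 f.2)
  obtain ⟨Q, hQ, hQP⟩ := Ideal.exists_ideal_over_maximal_of_isIntegral (S := OG n k) P (by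
    intro f hf
    have h1 : f = 0 := by
      apply Subtype.ext
      have h2 : algebraMap D (OG n k) f = 0 := hf
      rw [← hmap f, h2]
      rfl
    rw [h1]
    exact P.zero_mem)
  obtain ⟨g, hg⟩ := max_OG Q hQ
  refine ⟨g, fun f => ?_⟩
  rw [← hQP, Ideal.mem_comap, hg, hmap]

end

end Run7.h342.MD
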