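import Pool.Agent.Run7.h342.MD.Bas

/-!
Moduli of endomorphisms of projective space: the statements of the pieces.

Paper proof. `W = (Ix n d → k)`, `w = card (Ix n d)`, `r = w - n²`, `G = GL_n`, `U ⊂ W` the
nondegenerate vectors, `A = Inv` the invariant regular functions, `F ∈ U` with a non-scalar
`g ∈ G`, `g F = F`.  Suppose that the local ring of `A` at `pt F` is regular.  Its dimension is at
most `r` (`S_KD`), so its maximal ideal is generated by `t_1, …, t_r`.  Near `F` the differentials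
of all invariants lie in the span of the `dt_i` (`S_SPAN`).  At a point `h` with stabilizer `μ_{d-1}`
the differentials of the invariants separate the vectors modulo the tangent space
`{lie Y h}` of the orbit (`S_F1`).  So `δ(h) = det (dt_i(h)(v_l))` is nonzero at such points `h`
near `F`, where `v_1, …, v_r` span a complement of `{lie Y F}`.  If `δ(F) = 0`, then `δ` vanishes on
a hypersurface through `F`, and this hypersurface contains points near `F` with stabilizer `μ_{d-1}`
(`S_COD`, by the count `S_COMB`). So `δ(F) ≠ 0`. But `g` fixes all `dt_i(F)`, hence acts trivially on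
`W / {lie Y F}`, which contradicts the count `S_COMB` again (`S_F3`).
-/

namespace Run7.h342.MD

open MvPolynomial

noncomputable section

/-- a scalar matrix -/
def IsScalar {n : ℕ} {k : Type} [Field k] (g : GL (Fin n) k) : Prop :=
  ∃ a : k, (g : Matrix (Fin n) (Fin n) k) = a • (1 : Matrix (Fin n) (Fin n) k)

/-- a diagonalizable matrix -/
def IsDiagble {n : ℕ} {k : Type} [Field k] (g : GL (Fin n) k) : Prop :=
  ∃ (u : GL (Fin n) k) (a : Fin n → k), (g : Matrix (Fin n) (Fin n) k) =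
    (u : Matrix (Fin n) (Fin n) k) * Matrix.diagonal a *
      ((u⁻¹ : GL (Fin n) k) : Matrix (Fin n) (Fin n) k)

/-- the stabilizer consists of scalar matrices -/
def TrivStab {n d : ℕ} {k : Type} [Field k] (c : Ix n d → k) : Prop :=
  ∀ g : GL (Fin n) k, act g c = c → IsScalar g

/-- restriction of functions to an orbit, as functions on `GL_n` -/
def orb {n d : ℕ} {k : Type} [Field k] (h : U n d k) : (U n d k → k) →ₐ[k] (GL (Fin n) k → k) where
  toFun φ g := φ (gact g h)
  map_one' := rfl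
  map_mul' _ _ := rfl
  map_zero' := rfl
  map_add' _ _ := rfl
  commutes' _ := rfl

/-- the restrictions of the regular functions on `U` to an orbit -/
def Cs {n d : ℕ} {k : Type} [Field k] (h : U n d k) : Subalgebra k (GL (Fin n) k → k) :=
  (OU n d k).map (orb h)

/-- The regular functions on `GL_n` which are invariant under the scalars of order `d - 1`. -/
def Cm (n d : ℕ) (k : Type) [Field k] : Subalgebra k (GL (Fin n) k → k) where
  carrier := {f | RegG f ∧ ∀ (ζ : k) (g g' : GL (Fin n) k), ζ ^ (d - 1) = 1 →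
    (g' : Matrix (Fin n) (Fin n) k) = ζ • (g : Matrix (Fin n) (Fin n) k) → f g' = f g}
  mul_mem' := by
    rintro a b ⟨h1, h2⟩ ⟨h3, h4⟩
    refine ⟨(OG n k).mul_mem h1 h3, fun ζ g g' hz hg => ?_⟩
    rw [Pi.mul_apply, Pi.mul_apply, h2 ζ g g' hz hg, h4 ζ g g' hz hg]
  add_mem' := by
    rintro a b ⟨h1, h2⟩ ⟨h3, h4⟩
    refine ⟨(OG n k).add_mem h1 h3, fun ζ g g' hz hg => ?_⟩
    rw [Pi.add_apply, Pi.add_apply, h2 ζ g g' hz hg, h4 ζ g g' hz hg]
  algebraMap_mem' := by
    intro r
    exact ⟨(OG n k).algebraMap_mem r, fun _ _ _ _ _ => rfl⟩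

/-- the maximal ideal of the unit element in `Cm` -/
def Mx (n d : ℕ) (k : Type) [Field k] : Ideal (Cm n d k) :=
  RingHom.ker ((Pi.evalRingHom (fun _ : GL (Fin n) k => k) 1).comp
    (Cm n d k).toSubring.subtype)

section

variable (n d : ℕ) (k : Type) [Field k] [IsAlgClosed k] [CharZero k]

/-- Piece ELIM. Elimination theory: the degenerate vectors are cut out by polynomials.

Proof. Let `c` be nondegenerate. By the Nullstellensatz (`MvPolynomial.vanishingIdeal_zeroLocus_eq_radical`) each `X_i ^ N` lies in the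
ideal `(pol c j)_j`, so for `t` large every monomial `m` of degree `t` is a combination
`∑_j A_{m,j} * pol c j`, and taking homogeneous components we may take `A_{m,j}` homogeneous of
degree `t - d`. Let `V_s` be the forms of degree `s`. The linear map
`L_c : V_{t-d}^n → V_t, (A_j) ↦ ∑ A_j pol c j` is surjective, its matrix has entries which are
polynomials (linear) in `c`. Choose `dim V_t` columns with nonzero minor for this `c`, let `P` be
this minor as a polynomial in `c'`. If `c'` has a zero `x ≠ 0`, then all forms in the range of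
`L_{c'}` vanish at `x`, so `L_{c'}` is not surjective (some monomial `X_i ^ t` is nonzero at `x`) and
the minor is zero. -/
def S_ELIM : Prop := ∀ c : Ix n d → k, Nondeg c →
  ∃ P : MvPolynomial (Ix n d) k, eval c P ≠ 0 ∧ ∀ c' : Ix n d → k, ¬ Nondeg c' → eval c' P = 0

/-- Piece INCA. There is no relation between the coordinates of degenerate vectors besides the
one with number `(i₀, x₀ ^ d)`.

Proof. Write `x₀` for the variable number `i₀`. Parametrize: for `b : Ix → k` and `t : Fin n → k`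
with `t i₀ = 1` let `Ψ(b,t)` be `b` with the coordinates `(i, x₀^d)` replaced by
`-∑_{s ≠ x₀^d} b (i,s) t^s`; then `ev (Ψ(b,t)) t = 0`, so `Ψ(b,t)` is degenerate. Let `Q ≠ 0` be a
polynomial of minimal total degree, not involving the coordinate `(i₀, x₀^d)`, with
`Q(Ψ(b,t)) = 0` for all `b, t` (as a polynomial identity in the `b_q`, `q ∉ {(i, x₀^d)}`, and the
`t_j`, `j ≠ i₀`). Differentiate with respect to `t_j`: `∑_{i ≠ i₀} (∂Q/∂c_{(i,x₀^d)})(Ψ) ·
∂Ψ_{(i,x₀^d)}/∂t_j = 0`. The determinant of the matrix `∂Ψ_{(i,x₀^d)}/∂t_j` (`i, j ≠ i₀`) is a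
nonzero polynomial (put `b = 1` at the coordinates `(i, x₀^{d-1} x_i)` and `b = 0` elsewhere: it is
`± 1`). So `(∂Q/∂c_{(i,x₀^d)})(Ψ) = 0` for all `i ≠ i₀`, by minimality these derivatives are zero,
`Q` does not involve the `c_{(i,x₀^d)}` (characteristic 0), and then `Q(Ψ(b,t)) = Q(b)` gives
`Q = 0`. -/
def S_INCA : Prop := ∀ (i₀ : Fin n) (s₀ : Sym (Fin n) d), (s₀ : Multiset (Fin n)) =
    Multiset.replicate d i₀ → ∀ Q : MvPolynomial (Ix n d) k, (i₀, s₀) ∉ Q.vars →
  (∀ c : Ix n d → k, ¬ Nondeg c → eval c Q = 0) → Q = 0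

/-- Piece INC (`S_INCA → S_INC`). The polynomials vanishing on all degenerate vectors form a
principal ideal, generated by an irreducible polynomial, the resultant.

Proof. Fix `i₀ = 0` and let `Ψ^* : k[W] → k[b, t]` be the substitution of INCA (`b_q`, `q ∉
{(i, x₀^d)}`, `t_j`, `j ≠ 0`). `I = ker Ψ^*` is prime. (a) `P ∈ I` iff `P` vanishes on all degenerate
vectors: if `c` has a zero `x` with `x 0 ≠ 0`, scale to `x 0 = 1`, then `c = Ψ(c, x)`; if `x 0 = 0`,
`x j ≠ 0`, apply this to `act (1 + ε E_{0j}) c`, `ε ≠ 0`, which has the zero `x + ε x_j e_0`; `P` of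
it is a polynomial in `ε` vanishing for all `ε ≠ 0`, so also for `ε = 0` (or use `tw (1 + ε E) (1 - ε E)`, `E * E = 0`).
(b) `I ≠ 0` since the `w` elements `Ψ^* X_q` of the polynomial ring in `w - 1`
variables are algebraically dependent. (c) `I` is generated by an irreducible `Θ`: `I` prime and
nonzero contains an irreducible `Θ`. Let `r ∈ I`. By INCA `Θ` involves `X_{q₀}`, `q₀ = (0, x₀^d)`.
If `Θ ∤ r`, then the resultant of `Θ` and `r` with respect to `X_{q₀}` (or: `Θ`, `r` are coprime in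
`k(other variables)[X_{q₀}]` by Gauss, so `uΘ + vr = Q ≠ 0` with `Q` not involving `X_{q₀}`) lies in
`I`, contradicting INCA. (d) the statement over `κ`: `Θ(Ψ(b,t)) = 0` is a polynomial identity, so it
holds over `κ`, for each choice of `i₀`: for `x 0 ≠ 0` this is the first case of (a); for `x 0 = 0`
the second case of (a) works over the infinite field `κ` in the same way. -/
def S_INC : Prop := ∃ Θ : MvPolynomial (Ix n d) k, Irreducible Θ ∧
  (∀ P : MvPolynomial (Ix n d) k, (∀ c : Ix n d → k, ¬ Nondeg c → eval c P = 0) → Θ ∣ P) ∧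
  ∀ (κ : Type) [Field κ] [Algebra k κ] (c : Ix n d → κ) (x : Fin n → κ), x ≠ 0 → ev c x = 0 →
    aeval c Θ = 0

variable {n d k} in
/-- `Θ` is a resultant. -/
structure IsRes (Θ : MvPolynomial (Ix n d) k) : Prop where
  irr : Irreducible Θ
  iff : ∀ c : Ix n d → k, eval c Θ ≠ 0 ↔ Nondeg c
  gen : ∀ (κ : Type) [Field κ] [Algebra k κ] (c : Ix n d → κ) (x : Fin n → κ), x ≠ 0 →
    ev c x = 0 → aeval c Θ = 0

/-- existence of resultants; follows from ELIM and INC -/
def S_RES : Prop := ∃ Θ : MvPolynomial (Ix n d) k, IsRes Θ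

/-- Piece REPU. Denominators are powers of the resultant, the algebra is finitely generated.

Proof. If `φ = P/Q` with `Q ≠ 0` on `U = {Θ ≠ 0}`, then `Q` vanishes only where `Θ` vanishes, so
`Q ∣ Θ ^ m` by the Nullstellensatz; `Q * Q' = Θ ^ m`, `φ = P Q' / Θ ^ m`. The algebra is generated by
the coordinates and `1/Θ`. -/
def S_REPU : Prop := ∀ Θ : MvPolynomial (Ix n d) k, IsRes Θ →
  (∀ φ : U n d k → k, RegU φ → ∃ P m, RepU φ P (Θ ^ m)) ∧ Algebra.FiniteType k (OU n d k)

/-- Piece DU (`S_RES → S_REPU → S_DU`). Calculus of directional derivatives on `U`.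

Proof. The numerator `dd P c v * Q(c) - P(c) * dd Q c v` divided by `Q(c)^2` does not depend on the
representation: if `P/Q = P'/Q'` on `U = {Θ ≠ 0}`, then `(P Q' - P' Q) Θ = 0` everywhere, so
`P Q' = P' Q` as polynomials (`k` infinite, `Θ ≠ 0`), now differentiate. The rest by explicit
representations; `act g` is linear in `c` (`act_add`, `act_smul`), so `P(act g c)` is given by a
polynomial and `dd` of it is `dd P (act g c) (act g v)`. -/
structure S_DU : Prop where
  rep : ∀ (φ : U n d k → k) P Q, RepU φ P Q → ∀ c v, dU φ c v =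
    (dd P c.1 v * eval c.1 Q - eval c.1 P * dd Q c.1 v) / eval c.1 Q ^ 2
  add : ∀ φ ψ : U n d k → k, RegU φ → RegU ψ → ∀ c v, dU (φ + ψ) c v = dU φ c v + dU ψ c v
  mul : ∀ φ ψ : U n d k → k, RegU φ → RegU ψ → ∀ c v,
    dU (φ * ψ) c v = φ c * dU ψ c v + ψ c * dU φ c v
  const : ∀ (a : k) c v, dU (fun _ : U n d k => a) c v = 0
  smul : ∀ (a : k) (φ : U n d k → k), RegU φ → ∀ c v, dU (a • φ) c v = a * dU φ c v
  sum : ∀ {τ : Type} (s : Finset τ) (φ : τ → U n d k → k), (∀ i, RegU (φ i)) → ∀ c v,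
    dU (∑ i ∈ s, φ i) c v = ∑ i ∈ s, dU (φ i) c v
  add_v : ∀ φ : U n d k → k, RegU φ → ∀ c v v', dU φ c (v + v') = dU φ c v + dU φ c v'
  smul_v : ∀ φ : U n d k → k, RegU φ → ∀ c (a : k) v, dU φ c (a • v) = a * dU φ c v
  /-- derivative of a linear function plus a constant -/
  lin : ∀ (l : Ix n d → k) (a : k) c v,
    dU (fun x : U n d k => (∑ q, l q * x.1 q) + a) c v = ∑ q, l q * v q
  /-- in a fixed direction the derivative is again regular -/
  reg : ∀ φ : U n d k → k, RegU φ → ∀ v, RegU (fun c => dU φ c v)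
  /-- the translate by `g` is regular -/
  regact : ∀ φ : U n d k → k, RegU φ → ∀ g, RegU (fun c => φ (gact g c))
  /-- chain rule for the action -/
  act : ∀ φ : U n d k → k, RegU φ → ∀ g c v,
    dU (fun x => φ (gact g x)) c v = dU φ (gact g c) (act g v)

/-- Piece DG. Calculus of derivatives at the unit element on `GL_n`. As DU, with
`det` in place of `Θ`; `dd det 1 Y = trace Y`. -/
structure S_DG : Prop where
  rep : ∀ (f : GL (Fin n) k → k) p m, RepG f p m → ∀ Y, dG f Y =
    dd p (ent 1) (ent Y) - m * Y.trace * eval (ent 1) p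
  add : ∀ f f' : GL (Fin n) k → k, RegG f → RegG f' → ∀ Y, dG (f + f') Y = dG f Y + dG f' Y
  mul : ∀ f f' : GL (Fin n) k → k, RegG f → RegG f' → ∀ Y,
    dG (f * f') Y = f 1 * dG f' Y + f' 1 * dG f Y
  const : ∀ (a : k) Y, dG (fun _ : GL (Fin n) k => a) Y = 0
  add_v : ∀ f : GL (Fin n) k → k, RegG f → ∀ Y Y', dG f (Y + Y') = dG f Y + dG f Y'
  smul_v : ∀ f : GL (Fin n) k → k, RegG f → ∀ (a : k) Y, dG f (a • Y) = a * dG f Y

/-- Piece ORB (`S_RES → S_REPU → S_DU → S_DG → S_ORB`). Restriction of regular functions to orbits.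

Proof. The coordinates of `act g h` are `p_q(g) / det g ^ M` with polynomials `p_q` (`tw` with the
adjugate instead of the inverse). For `φ = P/Θ^m` also `1/Θ(act g h)` is regular on `GL_n`: the
function `g ↦ Θ(act g h)` is regular without zeros on `GL_n`, so by the Nullstellensatz it is
`1/(regular)`. Invariance under `ζ` with `ζ^(d-1) = 1`: `act (ζ g) v = ζ^(1-d) • act g v = act g v`.
`der`: chain rule; the derivative at `g = 1` in direction `Y` of `act g h` is `lie Y h` (compare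
values: `ev (tw A B h) x = A (ev h (B x))`, derivative of `A (ev h (B x))` for `A = 1 + ε Y`,
`B = 1 - ε Y`). `jet`: `dU φ (gact g h) (act g v) = ∑_q (act g v)_q (∂_q φ)(gact g h)`. -/
structure S_ORB : Prop where
  reg : ∀ (φ : U n d k → k), RegU φ → ∀ h : U n d k, orb h φ ∈ Cm n d k
  der : ∀ (φ : U n d k → k), RegU φ → ∀ (h : U n d k) (Y : Matrix (Fin n) (Fin n) k),
    dG (orb h φ) Y = dU φ h (lie Y h.1)
  jet : ∀ (φ : U n d k → k), RegU φ → ∀ (h : U n d k) (v : Ix n d → k),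
    (fun g => dU φ (gact g h) (act g v)) ∈ Cm n d k

/-- Piece INT (`S_RES → S_INT`). The functions on `GL_n` are integral over the functions on an orbit.

Proof. Let `K = FractionRing (MvPolynomial (Fin n × Fin n) k)`, `G ∈ GL_n(K)` the generic matrix,
`V` a valuation subring of `K` which contains the coordinates of `c := act G h ∈ W(K)` and
`1/Θ(c)` (and `k`). Claim: `V` contains the entries of `G` and of `G⁻¹`. Then by
`iInf_valuationSubring_superset` these are integral over the subring generated by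
`k`, the coordinates of `c` and `1/Θ(c)`, which is what we want (evaluate the integral
equations). Proof of the claim: for `x ∈ K^n` let `|x| = max |x_i|` (`V.valuation`), so `|G x| ≤ |G| |x|`.
(1) `|ev c x| = |x|^d` for all `x`: scale to `|x| = 1`; `ev c x ∈ V^n`; if it were in the maximal
ideal, then the reduction of `c` would have a nonzero zero over the residue field `κ`, so
`Θ(c)` would be a nonunit (`IsRes.gen`), but `1/Θ(c) ∈ V`. (2) the same for `h`: `|ev h x| = |x|^d` (`h` has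
coordinates in `k`, `Θ(h) ≠ 0` in `k`). (3) `ev c (G x) = G (ev h x)`. Let `ρ = |G|`, the largest
absolute value of an entry, in column `j`. Then for `x = e_j`: `|G x| = ρ`, `|x| = 1`, so
`ρ^d = |G x|^d = |ev c (G x)| = |G (ev h x)| ≤ ρ |ev h x| = ρ`, so `ρ ≤ 1`. The same for `G⁻¹`. -/
def S_INT : Prop := ∀ h : U n d k, ∀ f ∈ OG n k, IsIntegral (Cs h) f

/-- Piece INF. Infinitesimal stabilizers are trivial (`F` = the map with coefficients `c`).

Proof. Suppose `Y (F x) = dF_x (Y x)` for all `x`, `Y ≠ 0`. Let `λ_i` be the eigenvalues of `Y`.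
(a) All `λ_i` are zero: otherwise choose a `ℚ`-linear `τ : k → ℚ` with `τ(λ_i)` not all zero. In
coordinates adapted to the generalized eigenspaces (replace `c` by `act u c`, `Y` by `u Y u⁻¹`,
triangular) the derivation `D_Y = ∑ (Y x)_i ∂_i` satisfies `D_Y F_j = ∑ Y_{ji} F_i`, so `F_j` lies in the
generalized eigenspace of `D_Y` on forms of degree `d` for the eigenvalue `λ_j`, i.e. `F_j` is a
combination of monomials `x^I` with `∑_{i ∈ I} λ_i = λ_j` (coordinates on the generalized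
eigenspaces). Let `μ = max τ(λ_i)`, say `μ > 0`
(else take `-τ`). On the nonzero subspace where the coordinates with `τ(λ_i) < μ` vanish all
monomials have `τ`-weight `d μ > μ ≥ τ(λ_j)`, so all `F_j` vanish there; contradiction.
(b) So `Y` is nilpotent, `Y^m ≠ 0 = Y^{m+1}`, `m ≥ 1`. From `Y F = D_Y F` we get
`F(exp(sY) x) = exp(sY) F(x)` for all `s ∈ k` (polynomials in `s` with the same derivative and value
at 0). Choose `x` with `Y^m x ≠ 0`. The left side has coefficient `F(Y^m x)/(m!)^d ≠ 0` at `s^{dm}`,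
the right side has degree at most `m < dm` in `s`. Contradiction. -/
def S_INF : Prop := ∀ c : Ix n d → k, Nondeg c → ∀ Y : Matrix (Fin n) (Fin n) k,
  lie Y c = 0 → Y = 0

/-- Piece DIAG. Elements of stabilizers are diagonalizable.

Proof. Let `g F = F g`. Jordan decomposition `g = s u = u s`, `s` diagonalizable, `u = 1 + ν`
unipotent (Mathlib: `Module.End.exists_isNilpotent_isSemisimple`). The operator `ρ(g) = act g` on
`W` is `ρ(s) ρ(u)` with commuting `ρ(s)` diagonalizable and `ρ(u)` unipotent; `ρ(g) F = F` implies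
that `F` is in the eigenspace of `ρ(s)` for the eigenvalue 1 (the spaces `ker (ρ(g) - λ)^∞ = ker (ρ(s) - λ)`), so
`ρ(s) F = F`, `ρ(u) F = F`. Then `F(u^a x) = u^a F(x)` for all `a ∈ ℕ`, `u^a = ∑_j C(a,j) ν^j`. If
`ν^m ≠ 0 = ν^{m+1}`, `m ≥ 1`, choose `x` with `ν^m x ≠ 0`; both sides are polynomials in `a`, the left side has
coefficient `F(ν^m x)/(m!)^d ≠ 0` at `a^{dm}`, the right side has degree at most `m < dm`.
So `ν = 0`. (Alternatively: `g` with `g F = F` preserves the finite set ... any other proof.) -/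
def S_DIAG : Prop := ∀ c : Ix n d → k, Nondeg c → ∀ g : GL (Fin n) k, act g c = c →
  IsDiagble g

/-- Piece COMB. The count of the coordinates which are moved by a diagonal matrix.

Proof. For a monomial `s` let `a^s` be its value and `m(b) = #{i | a i = b} ≤ n - 1`. The number is
`∑_s (n - m(a^s))`. If `d ≥ 3`, it is at least the number of monomials
`C(n+d-1,d) ≥ C(n+2,3) = n(n+1)(n+2)/6 ≥ n² - n + 2`. If `d = 2`:
`2 ∑_{s} m(a^s) = ∑_{i,j} m(a_i a_j) + ∑_i m(a_i²)`, and for fixed `i`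
`∑_j m(a_i a_j) = ∑_b m(b) m(a_i b) ≤ ∑_b m(b)² ≤ (n-1)² + 1`, `m(a_i²) ≤ n - 1`. So
`2 ∑_s m(a^s) ≤ n (n² - 2n + 2) + n (n-1) = n³ - n² + n`, and the number is at least
`n · n(n+1)/2 - ⌊(n³ - n² + n)/2⌋ = ⌈(2n² - n)/2⌉ ≥ n² - n + 2` for `n ≥ 3` (for `n = 3`: `⌈7.5⌉ = 8 = 9 - 3 + 2`).
-/
def S_COMB : Prop := ∀ a : Fin n → k, (∀ i, a i ≠ 0) → (∃ i j, a i ≠ a j) →
  n * n + 2 ≤ n +
    {q : Ix n d | a q.1 ≠ ((q.2 : Multiset (Fin n)).map a).prod}.ncard

/-- Piece COD (`S_COMB → S_COD`). The points with diagonalizable non-scalar stabilizers are of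
codimension two.

Proof. For a set `T ⊆ Ix` let `W^T` be the vectors supported in `T`. If `g = u diag(a) u⁻¹`,
`act g c = c`, then `c' = act u⁻¹ c ∈ W^T` for `T = {q | a q.1 = a^{q.2}}`, and by COMB
`#T + n² + 2 ≤ n + w`. Claim: for each `T` with `#T + n² + 2 ≤ n + w` there is a polynomial `q_T`, not
divisible by `D`, which vanishes at `act u c'` for all `u ∈ GL_n`, `c' ∈ W^T`. Then, `D` being
prime, `D ∤ S ∏_T q_T`, and by the Nullstellensatz there is `c` with `D(c) = 0`,
`(S ∏_T q_T)(c) ≠ 0`; this is the wanted point. Proof of the claim: let `Φ(g,c') = tw g (adj g) c'`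
(`= det(g)^d act g c'`), a polynomial map. Restrict to `g` with first row `(1, …, 1)` and
`c' ∈ W^T`: this is a polynomial map from an affine space of dimension
`n² - n + #T ≤ w - 2`. Some variable `X_α` occurs in `D`; the other `w - 1` variables are
algebraically independent modulo `D`. Their images under `Φ^*` are `w - 1`
polynomials in at most `w - 2` variables, so there is a nonzero polynomial `q` in the variables
`X_β`, `β ≠ α`, with `q ∘ Φ = 0` on the restricted set; `D ∤ q` since `q` does not involve `X_α`.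
`q ∘ Φ = 0` everywhere: for `g` with `g_{0j} ≠ 0` for all `j` write `g = g' t`, `t` diagonal,
`g'` with first row `(1, …, 1)`; `Φ(g' t, c') = Φ(g', Φ(t, c'))` and `Φ(t, c') ∈ W^T`. The general case by
density (`q(Φ(g,c')) ∏_j g_{0j} = 0` for all `g`). Since `act g c' = det(g)^{-d} Φ(g, c') = Φ(g, det(g)^{-d} c')`, done. -/
def S_COD : Prop := ∀ D S : MvPolynomial (Ix n d) k, Irreducible D → ¬ D ∣ S →
  ∃ c : Ix n d → k, eval c D = 0 ∧ eval c S ≠ 0 ∧
    ∀ g : GL (Fin n) k, IsDiagble g → ¬ IsScalar g → act g c ≠ c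

/-- Piece F3 (`S_COMB → S_DIAG → S_F3`). A non-scalar element of the stabilizer acts non-trivially
on the normal space of the orbit.

Proof. `g = u diag(a) u⁻¹` by DIAG. Suppose `act g v - v ∈ L := {lie Y c}` for all `v`. `act g` is
diagonalizable on `W` (conjugate to `act (diag a)`, which is diagonal in the coordinates, with
eigenvalue `a q.1 / a^{q.2}` at `q`), so the range `R` of `act g - 1` has dimension
`#{q | a q.1 ≠ a^{q.2}} ≥ n² - n + 2` (COMB) and `R = (act g - 1) R ⊆ (act g - 1) L`. Since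
`act g (lie Y c) = lie (g Y g⁻¹) (act g c) = lie (g Y g⁻¹) c`, `(act g - 1) L` is the image of
`{g Y g⁻¹ - Y}`, which has dimension at most `n² - n` (the kernel of `Y ↦ g Y g⁻¹ - Y` contains
`u diag(b) u⁻¹` for all `b`). Contradiction. -/
def S_F3 : Prop := ∀ c : U n d k, ∀ g : GL (Fin n) k, act g c.1 = c.1 →
  ¬ IsScalar g → ∃ v : Ix n d → k, ∀ Y : Matrix (Fin n) (Fin n) k, act g v - v ≠ lie Y c.1

/-- Piece ETA (`S_DG → S_ETA`). `GL_n → GL_n / μ_{d-1}` is etale at the unit element.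

Proof. Let `e = d - 1`, `x_{ij}` the coordinates, `y = x_{00}`. `f ∈ Cm` is `p / det^m` and `f` is the
sum of its components of degree `≡ 0 mod e` (the projection `f ↦ (1/e) ∑_ζ f(ζ g)`, or compare
homogeneous components of `p`; multiply `p` by a power of `det` so that `e ∣ n m`). Multiply by `w^N`, `w = y^e ∈ Cm`,
`w(1) = 1`, and use `z_{ij} = x_{ij} y^{e-1} ∈ Cm`, `det^e ∈ Cm`: after multiplication with a product
`c₁` of powers of `w` and of `det^e` (value 1 at the unit element, not in `Mx`), `c₁ f` is a polynomial in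
`w` and the `z_{ij}`, `(i,j) ≠ (0,0)` (a monomial `∏ x_{i_ν j_ν}` of degree `e N'` times a power of `w` is a product of `z`'s and `w`'s:
`∏_{ν=1}^{M} x_ν · y^{(e-1)M} = ∏ z_ν`). Expand this polynomial at
the unit element: modulo `Mx²` it is `f(1) + ∑ α_{ij} (z_{ij} - δ_{ij}) + β (w - 1)`. Now
`dG z_{ij} Y = Y_{ij} + δ_{ij}(e-1) Y_{00}`, `dG w Y = e Y_{00}`, these `n²` functionals are linearly independent
(`e ≠ 0` in `k`), and `dG (c₁ f) = 0`, `dG` of elements of `Mx²` is zero, so all `α_{ij} = β = 0`,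
`c₁ f ∈ Mx²`, and `f = c₁ f - (c₁ - 1) f`: `c₁ ≡ 1 mod Mx` so `(c₁ - 1) f ∈ Mx · Mx`. -/
def S_ETA : Prop := ∀ f : Cm n d k, f.1 1 = 0 → (∀ Y, dG f.1 Y = 0) →
  f ∈ Mx n d k ^ 2

/-- Piece CON (all of RES, REPU, DU, DG, ORB, INT, INF, ETA `→ S_CON`).

Proof. `C = Cs h ⊆ C' = Cm` (ORB). `C` is a finitely generated algebra (REPU), noetherian, `OG` is a
finitely generated algebra, integral over `C` (INT), so a finite `C`-module, and `C'` is a finite
`C`-module. `𝔪 = {f ∈ C | f 1 = 0}`. Claim: `C' = C + 𝔪 C'`. Then Nakayama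
(`Submodule.exists_sub_one_mem_and_smul_eq_zero_of_fg_of_le_smul` for `C'/C`) gives `c₀ ∈ 1 + 𝔪` with
`c₀ C' ⊆ C`. Proof of the claim: it suffices that `Mx = 𝔪 C'` (`C' = k + Mx`). (1) `Mx` is the only maximal ideal of
`C'` containing `𝔪 C'`: such an ideal is the contraction of a maximal ideal of `OG` (`OG` is integral
over `C'`), i.e. of a point `g ∈ GL_n` (Nullstellensatz), and `f(g) = f(1)` for all `f ∈ C`, so by
the coordinate functions `act g h = h`, `g` is a scalar `ζ` (TrivStab) with `ζ^{d-1} = 1`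
(`act ζ h = ζ^{1-d} h`, `h ≠ 0`), so the ideal is `Mx`. (2) `Mx ⊆ 𝔪 C' + Mx²`: let `f ∈ C'`,
`f 1 = 0`. By INF `Y ↦ lie Y h` is injective, so there is a linear functional `l` on `W` with
`l (lie Y h) = dG f Y` for all `Y` (`dG f` is linear in `Y`). Let `φ(x) = l(x) - l(h)`, so `orb h φ ∈ 𝔪` and by ORB
`dG (f - orb h φ) = 0`, so `f - orb h φ ∈ Mx²` by ETA. (3) `C'/𝔪C'` is a finite dimensional algebra
(finite over `C/𝔪 = k`), local by (1), with maximal ideal `M̄ = M̄²` by (2), so `M̄ = 0`. -/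
def S_CON : Prop := ∀ h : U n d k, TrivStab h.1 →
  ∃ c₀ ∈ Cs h, c₀ 1 ≠ 0 ∧ ∀ f ∈ Cm n d k, c₀ * f ∈ Cs h

/-- Piece SLI (all of RES, REPU, DU, DG, ORB, INT, INF, ETA, CON `→ S_SLI`).

Proof. `C = Cs h`, `C' = Cm`, `𝔪 = {f ∈ C | f 1 = 0}`, `I = {φ ∈ OU | orb h φ = 0}`,
`j_φ(g) = dU φ (gact g h) (act g v)`; `j_φ ∈ C'` by ORB. For `φ ∈ I`, `b ∈ OU`: `j_{bφ} = orb h b * j_φ`.
(1) There is `φ₀ ∈ I` with `j_{φ₀}(1) = dU φ₀ h v ≠ 0`: choose a linear functional `l` on `W` with
`l = 0` on `{lie Y h}`, `l(v) ≠ 0`; `φ₁(x) = l(x) - l(h)`. Then `f₁ = orb h φ₁` satisfies `f₁ 1 = 0`,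
`dG f₁ = 0` (ORB), so `f₁ ∈ Mx²` (ETA). With `c₀ = orb h b₀` of CON: `c₀² Mx² ⊆ (c₀ Mx)² ⊆ 𝔪²`
(square of the ideal `𝔪` of `C`), so `c₀² f₁ = orb h φ₂` with `φ₂` in the square of the ideal
`{φ ∈ OU | φ h = 0}`. `φ₀ = b₀² φ₁ - φ₂ ∈ I`, `dU φ₀ h v = b₀(h)² l(v) ≠ 0`.
(2) `φ₃ = b₀ φ₀ ∈ I` has `j_{φ₃} = c₀ j_{φ₀} ∈ C`, `j_{φ₃}(1) ≠ 0`.
(3) `𝔞 = {j_φ | φ ∈ I, j_φ ∈ C}` is an ideal of `C`, stable under the left translations
`f ↦ f(g₀ · )` (replace `φ` by `φ(gact g₀ · )`, use `S_DU.act` and `act_mul`). It is not contained in the maximal ideal of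
any point `g` (translate (2)), and all maximal ideals of `C` come from points of `GL_n` (`OG` is
integral over `C`, lying over, Nullstellensatz). So `1 ∈ 𝔞`. -/
def S_SLI : Prop := ∀ h : U n d k, TrivStab h.1 → ∀ v : Ix n d → k,
  (∀ Y : Matrix (Fin n) (Fin n) k, v ≠ lie Y h.1) →
  ∃ φ ∈ OU n d k, (∀ g, φ (gact g h) = 0) ∧ ∀ g, dU φ (gact g h) (act g v) = 1

/-- Piece EXP (`S_RES → S_REPU → S_EXP`). Proof. `Θ(act g x) = χ(g) Θ(x)`: for fixed `g` the
polynomial `Θ(act g ·)` is irreducible (linear automorphism) and has the same zeros as `Θ`, so it is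
`χ(g) Θ` with `χ(g) ≠ 0`; `χ(g) = Θ(act g x₀)/Θ(x₀)` is regular in `g` and so is `1/χ(g) = χ(g⁻¹)`.
For `φ = P/Θ^m`: `P(act g x)` is a finite sum `∑ f_i(g) P_i(x)` (coordinates of `act g x` are linear in
`x` with regular coefficients; induction on `P`). -/
def S_EXP : Prop := ∀ φ : U n d k → k, RegU φ → ∃ (N : ℕ) (f : Fin N → GL (Fin n) k → k)
  (ψ : Fin N → U n d k → k), (∀ i, RegG (f i)) ∧ (∀ i, RegU (ψ i)) ∧
    ∀ g x, φ (gact g x) = ∑ i, f i g * ψ i x

/-- Piece REY. The Reynolds functional. Everything is in the starting file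
`Pool.Agent.Helper819.Reyn` (`rho w`, `rho_Lsub`, `rho_dt`, `rho_det_mul`; `Rsub` instead of `Lsub` by transposition:
use `f ↦ f(gᵀ)`). `ρ(p/det^m) = rho m p`, well defined by `rho_det_mul`. -/
def S_REY : Prop := ∃ ρ : OG n k →ₗ[k] k, ρ 1 = 1 ∧ ∀ (g₀ : GL (Fin n) k) (f f' : OG n k),
  (∀ g, f'.1 g = f.1 (g * g₀)) → ρ f' = ρ f

/-- Piece F1 (`S_DU → S_EXP → S_REY → S_SLI → S_F1`). Proof. Take `φ` from SLI,
`φ(gact g x) = ∑ f_i(g) ψ_i(x)` from EXP, `Φ(x) = ∑ ρ(f_i) ψ_i(x) = ρ(g ↦ φ(gact g x))`. `Φ` is regular and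
invariant (`ρ(f( · g₀)) = ρ(f)`, `gact (g g₀) x = gact g (gact g₀ x)`; `mem_inv`), and
`dU Φ h v = ∑ ρ(f_i) dU ψ_i h v = ρ(g ↦ ∑ f_i(g) dU ψ_i h v) = ρ(g ↦ dU φ (gact g h) (act g v)) = ρ(1) = 1`
(by `S_DU.act`). -/
def S_F1 : Prop := ∀ h : U n d k, TrivStab h.1 → ∀ v : Ix n d → k,
  (∀ Y : Matrix (Fin n) (Fin n) k, v ≠ lie Y h.1) → ∃ φ ∈ Inv n d k, dU φ h v ≠ 0

/-- Piece JAC (`S_RES → S_REPU → S_DU → S_JAC`). Algebraically independent functions have independent
differentials somewhere (characteristic 0).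

Proof. Let `K = k(W) = FractionRing (MvPolynomial (Ix n d) k)`; `OU` embeds in `K` (`P/Q ↦ P/Q`, well
defined since `U` is dense). Extend the `t_i` to a transcendence basis `T` of `K` over `k`; `#T = w`.
`K` is algebraic and separable over `k(T)`, so `Der_k(K,K) → K^T`, `D ↦ (D T_j)_j` is injective, and
`dim Der_k(K,K) = w`, so it is bijective: there are `D_j = ∑_q c_{jq} ∂_q` with `D_j t_i = δ_ij`. So the matrix
`(∂_q t_i)` over `K` has rank `a`, some minor is a nonzero element of `K`, and it is nonzero at some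
point of `U` (the point has to avoid the zeros of the numerator and of `Θ`). -/
def S_JAC : Prop := ∀ (a : ℕ) (t : Fin a → U n d k → k), (∀ i, RegU (t i)) →
  AlgebraicIndependent k t → ∃ c : U n d k,
    LinearIndependent k (fun i : Fin a => (fun q : Ix n d => dU (t i) c (Pi.single q 1)))

variable {n d k} in
/-- The functions `t i` generate the maximal ideal of the local ring of `pt F`. -/
structure IsGen {r : ℕ} (F : U n d k) (t : Fin r → U n d k → k) : Prop where
  mem : ∀ i, t i ∈ Inv n d k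
  zero : ∀ i, t i F = 0
  gen : ∀ φ ∈ Inv n d k, φ F = 0 → ∃ s ∈ Inv n d k, s F ≠ 0 ∧
    ∃ a : Fin r → U n d k → k, (∀ i, a i ∈ Inv n d k) ∧ s * φ = ∑ i, a i * t i

/-- Piece KD (RES, REPU, DU, ORB, INF, JAC, TRD `→ S_KD`). If the local ring is regular, then the
maximal ideal has `w - n²` generators.

Proof. `n² ≤ w` since `Y ↦ lie Y F` is injective (INF). Let `a` be the dimension of the local ring
(finite, noetherian local). `a ≤ ringKrullDim Inv`, so by TRD there are algebraically independent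
`x_1, …, x_a ∈ Inv`. By JAC their differentials are independent at some `c ∈ U`, and they vanish on the
`n²`-dimensional space `{lie Y c}`: for `φ ∈ Inv` the function `orb c φ` is constant, so
`dU φ c (lie Y c) = dG (orb c φ) Y = 0` (ORB). So `a ≤ w - n² = r`. By regularity the maximal
ideal has `a` generators `t_i/s_i`; take the `t_i ∈ pt F`, and zeros for the remaining indices.
For `φ ∈ pt F`: `φ/1 = ∑ (a_i/s_i) t_i`, clear denominators. -/
def S_KD : Prop := ∀ F : U n d k,
  IsRegularLocalRing (Localization.AtPrime (pt F)) →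
  ∃ r : ℕ, r + n * n = Fintype.card (Ix n d) ∧ ∃ t : Fin r → U n d k → k, IsGen F t

/-- Piece SPAN (`S_RES → S_REPU → S_DU → S_SPAN`).

Proof. In the finite free `OU`-module `OU^{Ix}` put `dφ = (c ↦ dU φ c e_q)_q`. Let `M` be the
`OU`-submodule generated by all `dφ`, `φ ∈ Inv`, `N` the submodule generated by the `dt_i`,
`𝔫 = {b ∈ OU | b F = 0}`. For `φ ∈ Inv`, `φ F = 0`, `s φ = ∑ a_i t_i`:
`s dφ = ∑ a_i dt_i + ∑ t_i da_i - φ ds ∈ N + 𝔫 M` and `s ≡ s(F) mod 𝔫`, so `dφ ∈ N + 𝔫M` (for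
general `φ` subtract the constant `φ F`). So `M ≤ N + 𝔫 M`, `M` is finitely generated (`OU` noetherian by REPU), and
Nakayama gives `b ∈ OU`, `b F ≠ 0` (`b ≡ 1 mod 𝔫`) with `b M ≤ N`. `b = S/Q`. -/
def S_SPAN : Prop := ∀ (F : U n d k) (r : ℕ) (t : Fin r → U n d k → k),
  IsGen F t → ∃ S : MvPolynomial (Ix n d) k, eval F.1 S ≠ 0 ∧
    ∀ h : U n d k, eval h.1 S ≠ 0 → ∀ φ ∈ Inv n d k, ∃ a : Fin r → k, ∀ v,
      dU φ h v = ∑ i, a i * dU (t i) h v

/-- Piece MAIN (RES, REPU, DU, ORB, INF, DIAG, COD, F3, F1, KD, SPAN `→ S_MAIN`).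

Proof. Rescale `g`: for `λ` with `λ^{d-1} = a` (`a ≠ 0` as `F ≠ 0`), `act (λ • g) F = λ^{1-d} a • F = F`. Suppose the local
ring is regular, take `r`, `t` from KD, `S` from SPAN. Let `v_1, …, v_r` be a basis of a complement of
`L_F = {lie Y F}` in `W` (`dim L_F = n²` by INF). `S₂(h)` = determinant of the `w × w` matrix with
columns `lie E_ab h` and `v_l`: a polynomial in `h` (`lie` is linear in `h`), `S₂(F) ≠ 0`.
`δ(h) = det (dU t_i h v_l)`, a regular function (`S_DU.reg`), `δ = P_δ / Q_δ`.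
(1) If `h ∈ U`, `S(h) S₂(h) ≠ 0`, `TrivStab h`, then `δ(h) ≠ 0`: let `∑ β_l dU t_i h v_l = 0` for all
`i`, `v = ∑ β_l v_l`; by SPAN `dU φ h v = 0` for all `φ ∈ Inv`, by F1 `v ∈ L_h`, and
`S₂(h) ≠ 0` gives `β = 0`. (2) `δ(F) ≠ 0`: else let `D` be an irreducible factor of `P_δ` with `D(F) = 0` (if
`P_δ = 0`, any irreducible `D` with `D(F) = 0`, e.g. `X_q - C (F_q)`). `D ∤ S S₂ Θ` since these
are nonzero at `F`. COD gives `h` with `D(h) = 0`, `(S S₂ Θ)(h) ≠ 0`, so `h ∈ U`, and with DIAG `TrivStab h`;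
`δ(h) = 0` contradicts (1). (3) F3 gives `v` with `u := act g v - v ∉ L_F`. For all `i`,
`dU t_i F (act g v) = dU t_i (gact g F) (act g v) = dU t_i F v` (`S_DU.act`, `t_i` invariant,
`gact g F = F`), so `dU t_i F u = 0`; `u = (element of L_F) + ∑ β_l v_l`, `dU t_i F` vanishes on `L_F`
(ORB: `orb F t_i` is constant), so `∑ β_l dU t_i F v_l = 0` for all `i`, `β = 0` by (2),
`u ∈ L_F`: contradiction. -/
def S_MAIN : Prop := ∀ F : U n d k,
  (∃ g : GL (Fin n) k, ¬ IsScalar g ∧ ∃ a : k, act g F.1 = a • F.1) →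
  ¬ IsRegularLocalRing (Localization.AtPrime (pt F))

end

/-- Piece TRD. The Krull dimension is at most the transcendence degree.

Proof. Let `p_0 < p_1 < … < p_a` be primes, `x_i ∈ p_i`, `x_i ∉ p_{i-1}` (`1 ≤ i ≤ a`). Claim: no nonzero
polynomial `P` over `k` has `P(x_1, …, x_a) ∈ p_0`. Induction on `a`; `a = 0`: `P` is a nonzero
constant. `P = X_1^m (Q(X_2, …, X_a) + X_1 R)` with `Q ≠ 0`. `P(x) ∈ p_0` and `x_1 ∉ p_0` give
`Q(x_2, …, x_a) + x_1 R(x) ∈ p_0 ⊆ p_1`, so `Q(x_2, …, x_a) ∈ p_1`, contradicting the claim for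
`p_1 < … < p_a`. (Compare `Pool/Agent/N808/AS/GKDA.lean`.) -/
def S_TRD : Prop := ∀ (k R : Type) [Field k] [CommRing R] [Algebra k R] (a : ℕ),
  (a : WithBot ℕ∞) ≤ ringKrullDim R → ∃ x : Fin a → R, AlgebraicIndependent k x

end

end Run7.h342.MD
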